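import Pool.Agent.U38.HP.Cls

/-!
# Weighted composition operators with respect to biorthogonal systems
-/

set_option autoImplicit false
set_option linter.unusedSectionVars false

open Filter Topology
open scoped ENNReal

namespace Pool.Agent.U38.HP

/-- a bounded biorthogonal system with dense span and total functionals -/
structure BoundedSystem {X I : Type} [NormedAddCommGroup X] [NormedSpace ℂ X] (e : I → X)
    (ε : I → (X →L[ℂ] ℂ)) : Prop where
  self : ∀ i, ε i (e i) = 1
  other : ∀ i j, i ≠ j → ε i (e j) = 0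
  bounded : ∃ K : ℝ, ∀ i, ‖e i‖ ≤ K ∧ ‖ε i‖ ≤ K
  dense : (Submodule.span ℂ (Set.range e)).topologicalClosure = ⊤
  total : ∀ x : X, (∀ i, ε i x = 0) → x = 0

variable {X I : Type} [NormedAddCommGroup X] [NormedSpace ℂ X] {e : I → X}
  {ε : I → (X →L[ℂ] ℂ)}

theorem BoundedSystem.ext (h : BoundedSystem e ε) {Y : Type} [NormedAddCommGroup Y]
    [NormedSpace ℂ Y] {S T : X →L[ℂ] Y} (hST : ∀ i, S (e i) = T (e i)) : S = T := by
  ext f
  have h1 : (Submodule.span ℂ (Set.range e)).topologicalClosure ≤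
      LinearMap.ker ((S - T : X →L[ℂ] Y) : X →ₗ[ℂ] Y) := by
    refine Submodule.topologicalClosure_minimal _ ?_ (ContinuousLinearMap.isClosed_ker (S - T))
    rw [Submodule.span_le]
    rintro _ ⟨i, rfl⟩
    change (S - T) (e i) = 0
    rw [ContinuousLinearMap.sub_apply, hST, sub_self]
  rw [h.dense] at h1
  have h2 : (S - T) f = 0 := h1 (Submodule.mem_top : f ∈ (⊤ : Submodule ℂ X))
  rw [ContinuousLinearMap.sub_apply] at h2
  exact sub_eq_zero.1 h2

theorem BoundedSystem.e_ne (h : BoundedSystem e ε) (i : I) : e i ≠ 0 := by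
  intro h0
  have := h.self i
  rw [h0, map_zero] at this
  exact zero_ne_one this

theorem BoundedSystem.ε_ne (h : BoundedSystem e ε) (i : I) : ε i ≠ 0 := by
  intro h0
  have := h.self i
  rw [h0] at this
  simp at this

theorem BoundedSystem.eq (h : BoundedSystem e ε) {x y : X} (hxy : ∀ i, ε i x = ε i y) : x = y := by
  rw [← sub_eq_zero]
  exact h.total _ fun i => by rw [map_sub, hxy, sub_self]

/-- the adjoint form of a weighted permutation operator -/
theorem abs_apply (h : BoundedSystem e ε) {σ : Equiv.Perm I} {v : I → ℂ} {T : X →L[ℂ] X}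
    (hT : ∀ i, T (e i) = v i • e (σ i)) (f : X) (i : I) : ε (σ i) (T f) = v i * ε i f := by
  have h1 : (ε (σ i)).comp T = v i • ε i := by
    apply h.ext
    intro j
    change ε (σ i) (T (e j)) = v i * ε i (e j)
    rw [hT j, map_smul, smul_eq_mul]
    by_cases hij : i = j
    · subst hij
      rw [h.self, h.self]
    · rw [h.other _ _ fun hh => hij (σ.injective hh), h.other _ _ hij]
      ring
  exact congrArg (fun S : X →L[ℂ] ℂ => S f) h1

theorem abs_mono (h : BoundedSystem e ε) {σ : Equiv.Perm I} {v : I → ℂ} {T : X →L[ℂ] X}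
    (hT : ∀ (f : X) (i : I), ε (σ i) (T f) = v i * ε i f) (i : I) : T (e i) = v i • e (σ i) := by
  apply h.eq
  intro k
  obtain ⟨j, rfl⟩ := σ.surjective k
  rw [hT, map_smul, smul_eq_mul]
  by_cases hij : j = i
  · subst hij
    rw [h.self, h.self]
  · rw [h.other _ _ fun hh => hij (σ.injective hh), h.other _ _ hij]
    ring

theorem abs_comparable (h : BoundedSystem e ε) {σ : Equiv.Perm I} {v : I → ℂ} {T : X →L[ℂ] X}
    (hv : ∀ i, v i ≠ 0) (hT : ∀ i, T (e i) = v i • e (σ i)) (hn : ¬ HasHyper T) (x y : I) :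
    Comparable σ v x y := by
  obtain ⟨K, hK⟩ := h.bounded
  have hK0 : 0 ≤ K := (norm_nonneg _).trans (hK x).1
  set a := coc σ v x with ha
  set b := coc σ v y with hb
  have ha0 : ∀ n, a n ≠ 0 := ne_zero_of_rec σ v hv x a (coc_zero σ v x) (coc_succ σ v hv x)
  have hb0 : ∀ n, b n ≠ 0 := ne_zero_of_rec σ v hv y b (coc_zero σ v y) (coc_succ σ v hv y)
  by_cases hinf : ∀ δ : ℝ, 0 < δ → ∃ n : ℤ,
      ‖a n • e ((σ ^ n) x)‖ * ‖(b n)⁻¹ • ε ((σ ^ n) y)‖ < δ
  · exfalso
    apply hn
    refine hyp_of_bilateral T (fun n => a n • e ((σ ^ n) x))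
      (fun n => (b n)⁻¹ • ε ((σ ^ n) y)) (fun n => ?_) (fun n => ?_) ?_ ?_ hinf
    · change T (a n • e ((σ ^ n) x)) = a (n + 1) • e ((σ ^ (n + 1)) x)
      rw [map_smul, hT, smul_smul, ha, coc_succ σ v hv, mul_comm, zadd]
    · ext f
      change (b (n + 1))⁻¹ * ε ((σ ^ (n + 1)) y) (T f) = (b n)⁻¹ * ε ((σ ^ n) y) f
      rw [zadd, abs_apply h hT, hb, coc_succ σ v hv, mul_inv]
      have := hv ((σ ^ n) y)
      field_simp
    · change a 0 • e ((σ ^ (0 : ℤ)) x) ≠ 0
      exact smul_ne_zero (ha0 0) (h.e_ne _)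
    · change (b 0)⁻¹ • ε ((σ ^ (0 : ℤ)) y) ≠ 0
      exact smul_ne_zero (inv_ne_zero (hb0 0)) (h.ε_ne _)
  · push Not at hinf
    obtain ⟨δ, hδ, hh⟩ := hinf
    refine ⟨a, b, δ⁻¹ * (K * K), coc_zero σ v x, coc_zero σ v y, coc_succ σ v hv x,
      coc_succ σ v hv y, fun n => ?_⟩
    have h1 := hh n
    rw [norm_smul, norm_smul, norm_inv] at h1
    have h3 : 0 < ‖b n‖ := norm_pos_iff.2 (hb0 n)
    have h2 : δ ≤ (‖a n‖ * (K * K)) / ‖b n‖ := by
      refine h1.trans ?_
      rw [div_eq_mul_inv]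
      calc ‖a n‖ * ‖e ((σ ^ n) x)‖ * (‖b n‖⁻¹ * ‖ε ((σ ^ n) y)‖)
          ≤ ‖a n‖ * K * (‖b n‖⁻¹ * K) := by
            have e1 := (hK ((σ ^ n) x)).1
            have e2 := (hK ((σ ^ n) y)).2
            gcongr
        _ = ‖a n‖ * (K * K) * ‖b n‖⁻¹ := by ring
    rw [le_div_iff₀ h3] at h2
    have h4 : ‖b n‖ ≤ δ⁻¹ * (‖a n‖ * (K * K)) := by
      rw [inv_mul_eq_div, le_div_iff₀ hδ]
      linarith
    linarith [h4, mul_comm (K * K) ‖a n‖, mul_assoc δ⁻¹ (K * K) ‖a n‖]

/-- the classification in Banach spaces -/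
theorem abs_classify (h : BoundedSystem e ε) (τ : I → I) (w : I → ℂ) (T : X →L[ℂ] X)
    (hT : (∀ i, T (e i) = w i • e (τ i)) ∨ (∀ i, (ε i).comp T = w i • ε (τ i)))
    (hs : ∀ c : ℂ, T ≠ c • (1 : X →L[ℂ] X)) (hn : ¬ HasHyper T) :
    ∃ (σ : Equiv.Perm I) (v : I → ℂ), (∀ i, T (e i) = v i • e (σ i)) ∧ (∀ i, v i ≠ 0) ∧
      InfiniteOrbits σ ∧ ∀ x y, Comparable σ v x y := by
  have hker : ∀ f : X, T f = 0 → f = 0 := by
    intro f hf
    by_contra h0
    exact hn (hyp_of_eig T 0 f h0 (by rw [hf, zero_smul]) (hs 0))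
  have hran : ∀ φ : X →L[ℂ] ℂ, φ.comp T = 0 → φ = 0 := by
    intro φ hφ
    by_contra h0
    exact hn (hyp_of_coeig T 0 φ h0 (by rw [hφ]; ext f; simp) (hs 0))
  have key : ∃ (σ : Equiv.Perm I) (v : I → ℂ), (∀ i, T (e i) = v i • e (σ i)) ∧
      (∀ i, v i ≠ 0) := by
    rcases hT with hT | hT
    · have hw : ∀ i, w i ≠ 0 := by
        intro i hi
        exact h.e_ne i (hker (e i) (by rw [hT, hi, zero_smul]))
      have hinj : Function.Injective τ := by
        intro i j hij
        by_contra hne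
        have h1 : T (w j • e i - w i • e j) = 0 := by
          rw [map_sub, map_smul, map_smul, hT, hT, hij, smul_smul, smul_smul, mul_comm, sub_self]
        have h2 := hker _ h1
        have h3 := congrArg (fun f : X => ε i f) h2
        simp only [map_sub, map_smul, smul_eq_mul, map_zero, h.self, h.other i j hne] at h3
        apply hw j
        simpa using h3
      have hsur : Function.Surjective τ := by
        intro j
        by_contra hcon
        push Not at hcon
        apply h.ε_ne j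
        apply hran
        apply h.ext
        intro i
        change ε j (T (e i)) = 0
        rw [hT, map_smul, smul_eq_mul, h.other _ _ (fun hh => hcon i hh.symm), mul_zero]
      exact ⟨Equiv.ofBijective τ ⟨hinj, hsur⟩, w, hT, hw⟩
    · have hT' : ∀ i f, ε i (T f) = w i * ε (τ i) f := fun i f =>
        congrArg (fun S : X →L[ℂ] ℂ => S f) (hT i)
      have hw : ∀ i, w i ≠ 0 := by
        intro i hi
        apply h.ε_ne i
        apply hran
        ext f
        change ε i (T f) = 0
        rw [hT', hi, zero_mul]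
      have hinj : Function.Injective τ := by
        intro i j hij
        by_contra hne
        have h1 : w j • ε i - w i • ε j = 0 := by
          apply hran
          ext f
          change w j * ε i (T f) - w i * ε j (T f) = 0
          rw [hT', hT', hij]
          ring
        have h3 := congrArg (fun φ : X →L[ℂ] ℂ => φ (e i)) h1
        have h4 : w j * ε i (e i) - w i * ε j (e i) = 0 := h3
        rw [h.self, h.other j i (fun hh => hne hh.symm)] at h4
        apply hw j
        simpa using h4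
      have hsur : Function.Surjective τ := by
        intro j
        by_contra hcon
        push Not at hcon
        apply h.e_ne j
        apply hker
        apply h.total
        intro i
        rw [hT', h.other _ _ (hcon i), mul_zero]
      set σ : Equiv.Perm I := Equiv.ofBijective τ ⟨hinj, hsur⟩ with hσ
      have hσi : ∀ i, σ (σ⁻¹ i) = i := fun i => by
        rw [← Equiv.Perm.mul_apply, mul_inv_cancel]
        rfl
      have hτi : ∀ i, τ (σ⁻¹ i) = i := hσi
      have hm : ∀ i, T (e i) = w (σ⁻¹ i) • e (σ⁻¹ i) := by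
        intro i
        refine abs_mono (σ := σ⁻¹) (v := fun i => w (σ⁻¹ i)) h (fun f i => ?_) i
        change ε (σ⁻¹ i) (T f) = w (σ⁻¹ i) * ε i f
        rw [hT', hτi]
      exact ⟨σ⁻¹, fun i => w (σ⁻¹ i), hm, fun i => hw _⟩
  obtain ⟨σ, v, hm, hv⟩ := key
  refine ⟨σ, v, hm, hv, ?_, fun x y => abs_comparable h hv hm hn x y⟩
  have hnat : ∀ (x : I) (n : ℕ), 1 ≤ n → (σ ^ n) x ≠ x := by
    intro x n hn1 hx
    have hpow : ∀ k : ℕ, ∃ c : ℂ, (T ^ k) (e x) = c • e ((σ ^ k) x) := by
      intro k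
      induction k with
      | zero => exact ⟨1, by simp⟩
      | succ k ih =>
        obtain ⟨c, hc⟩ := ih
        refine ⟨c * v ((σ ^ k) x), ?_⟩
        rw [pow_succ']
        change T ((T ^ k) (e x)) = _
        rw [hc, map_smul, hm, smul_smul, pow_succ' σ]
        rfl
    obtain ⟨c, hc⟩ := hpow n
    rw [hx] at hc
    exact hn (hyp_of_periodic T hs n hn1 c (e x) (h.e_ne _) hc)
  intro x n hn0 hx
  rcases Int.eq_nat_or_neg n with ⟨k, rfl | rfl⟩
  · exact hnat x k (by omega) (by simpa using hx)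
  · apply hnat x k (by omega)
    have h1 : (σ ^ (k : ℤ)) ((σ ^ (-(k : ℤ))) x) = x := by
      rw [← Equiv.Perm.mul_apply, ← zpow_add]
      simp
    rw [hx] at h1
    simpa using h1

end Pool.Agent.U38.HP
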