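import Pool.Agent.U38.HP.Main

/-!
# Burnside's theorem; transfer of hyperinvariant subspaces
-/

set_option autoImplicit false
set_option linter.unusedSectionVars false

open Filter Topology

namespace Pool.Agent.U38.HP

/-- Burnside's theorem -/
theorem burnside {V : Type} [AddCommGroup V] [Module ℂ V] [Module.Finite ℂ V] [Nontrivial V]
    (S : Subalgebra ℂ (Module.End ℂ V))
    (h : ∀ U : Submodule ℂ V, (∀ s ∈ S, ∀ x ∈ U, s x ∈ U) → U = ⊥ ∨ U = ⊤)
    (f : Module.End ℂ V) : f ∈ S := by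
  classical
  have hsimple : IsSimpleModule S V := by
    rw [isSimpleModule_iff]
    refine { exists_pair_ne := ⟨⊥, ⊤, bot_ne_top⟩, eq_bot_or_eq_top := fun N => ?_ }
    rcases h (N.restrictScalars ℂ) (fun s hs x hx => N.smul_mem (⟨s, hs⟩ : S) hx) with h1 | h1
    · left
      rw [Submodule.eq_bot_iff]
      intro x hx
      have h2 : x ∈ N.restrictScalars ℂ := hx
      rw [h1] at h2
      exact (Submodule.mem_bot ℂ).1 h2
    · right
      rw [eq_top_iff]
      intro x _
      have h2 : x ∈ N.restrictScalars ℂ := by rw [h1]; trivial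
      exact h2
  have hbij := IsSimpleModule.algebraMap_end_bijective_of_isAlgClosed (A := S) (V := V) ℂ
  let g : Module.End (Module.End S V) V :=
    { toFun := f
      map_add' := map_add f
      map_smul' := by
        intro c x
        obtain ⟨t, rfl⟩ := hbij.2 c
        exact map_smul f t x }
  obtain ⟨s, hs⟩ := Module.Finite.fg_top (R := ℂ) (M := V)
  obtain ⟨r, hr⟩ := jacobson_density (R := S) g s
  have h2 : f = r.1 := by
    apply LinearMap.ext
    intro x
    have hx : x ∈ Submodule.span ℂ (s : Set V) := by rw [hs]; trivial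
    induction hx using Submodule.span_induction with
    | mem x hx => exact hr x hx
    | zero => rw [map_zero, map_zero]
    | add x y _ _ h1 h2 => rw [map_add, map_add, h1, h2]
    | smul t x _ h1 => rw [map_smul, map_smul, h1]
  rw [h2]
  exact r.2

/-- intertwiners which separate points, and intertwiners with dense joint range, transfer
hyperinvariant subspaces -/
theorem transfer {X Z : Type} [NormedAddCommGroup X] [NormedSpace ℂ X] [NormedAddCommGroup Z]
    [NormedSpace ℂ Z] (T : X →L[ℂ] X) (W : Z →L[ℂ] Z)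
    (h1 : ∀ x : X, x ≠ 0 → ∃ π : X →L[ℂ] Z, π.comp T = W.comp π ∧ π x ≠ 0)
    (h2 : ∀ M : Submodule ℂ X, IsClosed (M : Set X) →
      (∀ ι : Z →L[ℂ] X, T.comp ι = ι.comp W → ∀ z, ι z ∈ M) → M = ⊤)
    (h : HasHyper T) : HasHyper W := by
  obtain ⟨M, hMc, hM0, hM1, hM⟩ := h
  refine ⟨⨅ ι : {ι : Z →L[ℂ] X // T.comp ι = ι.comp W}, M.comap (ι.1 : Z →ₗ[ℂ] X), ?_, ?_, ?_, ?_⟩
  · rw [Submodule.coe_iInf]
    exact isClosed_iInter fun ι => hMc.preimage ι.1.continuous
  · intro h0
    obtain ⟨m, hm, hm0⟩ := (Submodule.ne_bot_iff M).1 hM0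
    obtain ⟨π, hπ, hπm⟩ := h1 m hm0
    apply hπm
    rw [← Submodule.mem_bot ℂ, ← h0, Submodule.mem_iInf]
    intro ι
    refine hM (ι.1.comp π) ?_ m hm
    ext x
    have e1 := congrArg (fun S : X →L[ℂ] Z => S x) hπ
    have e2 := congrArg (fun S : Z →L[ℂ] X => S (π x)) ι.2
    change π (T x) = W (π x) at e1
    change T (ι.1 (π x)) = ι.1 (W (π x)) at e2
    change ι.1 (π (T x)) = T (ι.1 (π x))
    rw [e1, e2]
  · intro h0
    apply hM1
    refine h2 M hMc fun ι hι z => ?_
    have : z ∈ (⊤ : Submodule ℂ Z) := Submodule.mem_top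
    rw [← h0, Submodule.mem_iInf] at this
    exact this ⟨ι, hι⟩
  · intro B hB z hz
    rw [Submodule.mem_iInf] at hz ⊢
    intro ι
    refine hz ⟨ι.1.comp B, ?_⟩
    ext x
    have e1 := congrArg (fun S : Z →L[ℂ] Z => S x) hB
    have e2 := congrArg (fun S : Z →L[ℂ] X => S (B x)) ι.2
    change B (W x) = W (B x) at e1
    change T (ι.1 (B x)) = ι.1 (W (B x)) at e2
    change T (ι.1 (B x)) = ι.1 (B (W x))
    rw [e1, e2]

/-- a finite-dimensional invariant subspace gives an eigenvalue -/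
theorem hyp_of_fin {X : Type} [NormedAddCommGroup X] [NormedSpace ℂ X] (T : X →L[ℂ] X)
    (hT : ∀ c : ℂ, T ≠ c • (1 : X →L[ℂ] X)) (V : Submodule ℂ X) [FiniteDimensional ℂ V]
    (hV : V ≠ ⊥) (hinv : ∀ y ∈ V, (T : X →ₗ[ℂ] X) y ∈ V) : HasHyper T := by
  have hnt : Nontrivial V := Submodule.nontrivial_iff_ne_bot.2 hV
  obtain ⟨μ, hμ⟩ := Module.End.exists_eigenvalue (LinearMap.restrict (T : X →ₗ[ℂ] X) hinv)
  obtain ⟨v, hv⟩ := hμ.exists_hasEigenvector
  refine hyp_of_eig T μ (v : X) ?_ ?_ (hT μ)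
  · intro h0
    exact hv.2 (Subtype.ext h0)
  · have := congrArg Subtype.val hv.apply_eq_smul
    simpa using this

/-- two-sided recursion -/
theorem zseq {α : Type} (F : ℤ → Equiv.Perm α) (a0 : α) :
    ∃ a : ℤ → α, a 0 = a0 ∧ ∀ n, a (n + 1) = F n (a n) := by
  let f : ℕ → α := fun n => Nat.rec a0 (fun k r => F (Int.ofNat k) r) n
  let g : ℕ → α := fun n => Nat.rec a0 (fun k r => (F (Int.negSucc k)).symm r) n
  refine ⟨fun n => Int.rec f (fun k => g (k + 1)) n, rfl, ?_⟩
  intro n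
  match n with
  | Int.ofNat n => rfl
  | Int.negSucc 0 =>
    change a0 = F (Int.negSucc 0) ((F (Int.negSucc 0)).symm a0)
    rw [Equiv.apply_symm_apply]
  | Int.negSucc (k + 1) =>
    change g (k + 1) = F (Int.negSucc (k + 1)) ((F (Int.negSucc (k + 1))).symm (g (k + 1)))
    rw [Equiv.apply_symm_apply]

theorem zind {P : ℤ → Prop} (h0 : P 0) (hs : ∀ n, P n ↔ P (n + 1)) : ∀ n, P n := by
  intro n
  induction n using Int.induction_on with
  | zero => exact h0
  | succ n ih => exact (hs _).1 ih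
  | pred n ih =>
    rw [hs]
    simpa using ih

end Pool.Agent.U38.HP
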