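import Pool.Agent.U38.HP.Red

/-!
# Classification and reduction
-/

set_option autoImplicit false
set_option linter.unusedSectionVars false

open Filter Topology
open scoped ENNReal

namespace Pool.Agent.U38.HP

variable {p : ℝ≥0∞} [Fact (1 ≤ p)]

theorem zadd (I : Type) (σ : Equiv.Perm I) (n : ℤ) (x : I) : (σ ^ (n + 1)) x = σ ((σ ^ n) x) := by
  rw [add_comm, zpow_add, zpow_one]
  rfl

/-- an operator of one of the two kinds without nontrivial hyperinvariant subspaces -/
theorem classify (hp : p ≠ ∞) {I : Type} (τ : I → I) (w : I → ℂ) (T : L p I →L[ℂ] L p I)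
    (hT : IsMono τ w T ∨ IsComp τ w T) (hs : ∀ c : ℂ, T ≠ c • (1 : L p I →L[ℂ] L p I))
    (hn : ¬ HasHyper T) :
    ∃ (σ : Equiv.Perm I) (v : I → ℂ), IsMono σ v T ∧ (∀ i, v i ≠ 0) ∧ InfiniteOrbits σ ∧
      ∀ x y, Comparable σ v x y := by
  have hker : ∀ f : L p I, T f = 0 → f = 0 := by
    intro f hf
    by_contra h0
    exact hn (hyp_of_eig T 0 f h0 (by rw [hf, zero_smul]) (hs 0))
  have hran : ∀ φ : L p I →L[ℂ] ℂ, φ.comp T = 0 → φ = 0 := by
    intro φ hφ
    by_contra h0
    exact hn (hyp_of_coeig T 0 φ h0 (by rw [hφ]; ext f; simp) (hs 0))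
  -- the permutation
  have key : ∃ (σ : Equiv.Perm I) (v : I → ℂ), IsMono σ v T ∧ (∀ i, v i ≠ 0) := by
    rcases hT with hT | hT
    · have hw : ∀ i, w i ≠ 0 := by
        intro i hi
        exact e_ne_zero i (hker (e p i) (by rw [hT, hi, zero_smul]))
      have hinj : Function.Injective τ := by
        intro i j hij
        by_contra hne
        have h1 : T (w j • (e p i : L p I) - w i • e p j) = 0 := by
          rw [map_sub, map_smul, map_smul, hT, hT, hij, smul_smul, smul_smul, mul_comm, sub_self]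
        have h2 := hker _ h1
        have h3 := congrArg (fun f : L p I => f i) h2
        simp only [lp.coeFn_sub, lp.coeFn_smul, Pi.sub_apply, Pi.smul_apply, smul_eq_mul,
          lp.coeFn_zero, Pi.zero_apply, e_self, e_ne hne] at h3
        apply hw j
        simpa using h3
      have hsur : Function.Surjective τ := by
        intro j
        by_contra hcon
        push Not at hcon
        apply ev_ne_zero (p := p) j
        apply hran
        apply ext_e hp
        intro i
        change (T (e p i)) j = 0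
        rw [hT, lp.coeFn_smul, Pi.smul_apply, smul_eq_mul, e_ne (fun h => hcon i h.symm), mul_zero]
      exact ⟨Equiv.ofBijective τ ⟨hinj, hsur⟩, w, hT, hw⟩
    · have hw : ∀ i, w i ≠ 0 := by
        intro i hi
        apply ev_ne_zero (p := p) i
        apply hran
        ext f
        change (T f) i = 0
        rw [hT, hi, zero_mul]
      have hinj : Function.Injective τ := by
        intro i j hij
        by_contra hne
        have h1 : w j • ev p (I := I) i - w i • ev p j = 0 := by
          apply hran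
          ext f
          change w j * (T f) i - w i * (T f) j = 0
          rw [hT, hT, hij]
          ring
        have h3 := congrArg (fun φ : L p I →L[ℂ] ℂ => φ (e p i)) h1
        have h4 : w j * (e p i : L p I) i - w i * (e p i : L p I) j = 0 := h3
        rw [e_self, e_ne (fun h => hne h.symm)] at h4
        apply hw j
        simpa using h4
      have hsur : Function.Surjective τ := by
        intro j
        by_contra hcon
        push Not at hcon
        apply e_ne_zero (p := p) j
        apply hker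
        ext i
        rw [hT, e_ne (hcon i), mul_zero]
        rfl
      set σ : Equiv.Perm I := Equiv.ofBijective τ ⟨hinj, hsur⟩ with hσ
      refine ⟨σ⁻¹, fun i => w (σ⁻¹ i), mono_of_apply hp fun f i => ?_, fun i => hw _⟩
      rw [hT]
      congr 1
      change f (σ (σ⁻¹ i)) = f i
      have h1 : σ (σ⁻¹ i) = i := by
        rw [← Equiv.Perm.mul_apply, mul_inv_cancel]
        rfl
      rw [h1]
  obtain ⟨σ, v, hm, hv⟩ := key
  refine ⟨σ, v, hm, hv, ?_, fun x y => comparable_of_not hp hv hm hn x y⟩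
  -- infinite orbits
  have hnat : ∀ (x : I) (n : ℕ), 1 ≤ n → (σ ^ n) x ≠ x := by
    intro x n hn1 hx
    have hpow : ∀ k : ℕ, ∃ c : ℂ, (T ^ k) (e p x) = c • e p ((σ ^ k) x) := by
      intro k
      induction k with
      | zero => exact ⟨1, by simp⟩
      | succ k ih =>
        obtain ⟨c, hc⟩ := ih
        refine ⟨c * v ((σ ^ k) x), ?_⟩
        rw [pow_succ']
        change T ((T ^ k) (e p x)) = _
        rw [hc, map_smul, hm, smul_smul, pow_succ' σ]
        rfl
    obtain ⟨c, hc⟩ := hpow n
    rw [hx] at hc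
    exact hn (hyp_of_periodic T hs n hn1 c (e p x) (e_ne_zero x) hc)
  intro x n hn0 hx
  rcases Int.eq_nat_or_neg n with ⟨k, rfl | rfl⟩
  · exact hnat x k (by omega) (by simpa using hx)
  · apply hnat x k (by omega)
    have h1 : (σ ^ (k : ℤ)) ((σ ^ (-(k : ℤ))) x) = x := by
      rw [← Equiv.Perm.mul_apply, ← zpow_add]
      simp
    rw [hx] at h1
    simpa using h1

section conj

variable {I : Type} (hp : p ≠ ∞) {σ : Equiv.Perm I} (ho : InfiniteOrbits σ) (x : I)

theorem orbit_inj (ho : InfiniteOrbits σ) (x : I) : Function.Injective fun n : ℤ => (σ ^ n) x := by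
  intro m n h
  by_contra hne
  have h' : (σ ^ m) x = (σ ^ n) x := h
  apply ho x (m - n) (sub_ne_zero.2 hne)
  rw [sub_eq_neg_add, zpow_add, Equiv.Perm.mul_apply, h', ← Equiv.Perm.mul_apply, ← zpow_add]
  simp

/-- restriction to an orbit -/
noncomputable def pr : L p I →L[ℂ] L p ℤ :=
  reix hp (fun n : ℤ => (σ ^ n) x) (fun _ => 1) 1 (fun _ => by simp)
    (fun _ _ _ _ h => orbit_inj ho x h)

theorem pr_apply (f : L p I) (n : ℤ) : pr hp ho x f n = f ((σ ^ n) x) := by
  unfold pr
  rw [reix_apply, one_mul]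

open Classical in
/-- extension by zero from an orbit -/
noncomputable def io : L p ℤ →L[ℂ] L p I :=
  reix hp (fun i : I => if h : ∃ n : ℤ, (σ ^ n) x = i then h.choose else 0)
    (fun i => if ∃ n : ℤ, (σ ^ n) x = i then 1 else 0) 1
    (fun i => by split_ifs <;> simp)
    (fun i j hi hj h => by
      have hi' : ∃ n : ℤ, (σ ^ n) x = i := by
        by_contra hcon
        simp [hcon] at hi
      have hj' : ∃ n : ℤ, (σ ^ n) x = j := by
        by_contra hcon
        simp [hcon] at hj
      simp only [hi', hj', dite_true] at h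
      rw [← hi'.choose_spec, ← hj'.choose_spec, h])

theorem io_apply (ho : InfiniteOrbits σ) (u : L p ℤ) (n : ℤ) :
    io hp x (σ := σ) u ((σ ^ n) x) = u n := by
  classical
  have h : ∃ m : ℤ, (σ ^ m) x = (σ ^ n) x := ⟨n, rfl⟩
  have h2 : h.choose = n := orbit_inj ho x h.choose_spec
  unfold io
  rw [reix_apply, if_pos h, dif_pos h, h2, one_mul]

theorem io_off (u : L p ℤ) (i : I) (hi : ¬ ∃ n : ℤ, (σ ^ n) x = i) : io hp x (σ := σ) u i = 0 := by
  classical
  unfold io
  rw [reix_apply]
  simp only [hi, if_false, zero_mul]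

theorem pr_io (u : L p ℤ) : pr hp ho x (io hp x (σ := σ) u) = u := by
  ext n
  rw [pr_apply, io_apply hp x ho]

/-- the permutation `n ↦ n + 1` of the integers -/
def shiftPerm : Equiv.Perm ℤ := Equiv.addRight 1

theorem shiftPerm_apply (n : ℤ) : shiftPerm n = n + 1 := rfl

variable {v : I → ℂ} {T : L p I →L[ℂ] L p I}

theorem pr_comm (hT : IsMono σ v T) (W : L p ℤ →L[ℂ] L p ℤ)
    (hW : IsMono shiftPerm (fun n => v ((σ ^ n) x)) W) (f : L p I) :
    pr hp ho x (T f) = W (pr hp ho x f) := by
  ext n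
  obtain ⟨m, rfl⟩ : ∃ m, n = m + 1 := ⟨n - 1, by ring⟩
  rw [pr_apply, zadd, perm_apply hp hT]
  have := perm_apply hp hW (pr hp ho x f) m
  rw [shiftPerm_apply] at this
  rw [this, pr_apply]

include ho in
theorem io_comm (hT : IsMono σ v T) (W : L p ℤ →L[ℂ] L p ℤ)
    (hW : IsMono shiftPerm (fun n => v ((σ ^ n) x)) W) (u : L p ℤ) :
    T (io hp x (σ := σ) u) = io hp x (σ := σ) (W u) := by
  ext i
  obtain ⟨j, rfl⟩ := σ.surjective i
  rw [perm_apply hp hT]
  by_cases hj : ∃ n : ℤ, (σ ^ n) x = j
  · obtain ⟨n, rfl⟩ := hj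
    rw [io_apply hp x ho, ← zadd, io_apply hp x ho]
    have := perm_apply hp hW u n
    rw [shiftPerm_apply] at this
    rw [this]
  · rw [io_off hp x u j hj, io_off hp x _ (σ j), mul_zero]
    rintro ⟨n, hn⟩
    apply hj
    refine ⟨n - 1, ?_⟩
    apply σ.injective
    rw [← zadd, ← hn]
    congr 2
    ring

include hp ho in
/-- the shift on the orbit of `x` -/
theorem exists_shift (hT : IsMono σ v T) :
    ∃ W : L p ℤ →L[ℂ] L p ℤ, IsMono shiftPerm (fun n => v ((σ ^ n) x)) W := by
  refine ⟨(pr hp ho x).comp (T.comp (io hp x (σ := σ))), mono_of_apply hp fun u n => ?_⟩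
  change (pr hp ho x (T (io hp x (σ := σ) u))) (n + 1) = _
  rw [pr_apply, zadd, perm_apply hp hT, io_apply hp x ho]

include ho in
/-- the operator which maps the orbit of `y` to the orbit of `x` -/
theorem exists_link (hv : ∀ i, v i ≠ 0) (hT : IsMono σ v T) (y : I) (h : Comparable σ v y x) :
    ∃ D : L p ℤ →L[ℂ] L p ℤ, (∀ u : L p ℤ, (D u) 0 = u 0) ∧
      (∀ n : ℤ, ∃ c : ℂ, D (e p n) = c • e p n) ∧ 
      (io hp x (σ := σ)).comp (D.comp (pr hp ho y)) * T =
        T * (io hp x (σ := σ)).comp (D.comp (pr hp ho y)) := by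
  obtain ⟨a, b, C, ha0, hb0, ha, hb, hC⟩ := h
  have hane : ∀ n, a n ≠ 0 := ne_zero_of_rec σ v hv y a ha0 ha
  have hbd : ∀ n : ℤ, ‖b n / a n‖ ≤ C := fun n => by
    rw [norm_div, div_le_iff₀ (norm_pos_iff.2 (hane n))]
    exact hC n
  refine ⟨reix hp (fun n : ℤ => n) (fun n => b n / a n) C hbd (fun _ _ _ _ h => h), ?_, ?_, ?_⟩
  · intro u
    rw [reix_apply, ha0, hb0, div_one, one_mul]
  · intro n
    refine ⟨b n / a n, ?_⟩
    ext m
    rw [reix_apply, lp.coeFn_smul, Pi.smul_apply, smul_eq_mul]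
    by_cases hmn : m = n
    · rw [hmn]
    · rw [e_ne hmn]
      ring
  · obtain ⟨W, hW⟩ := exists_shift hp ho x hT
    obtain ⟨W', hW'⟩ := exists_shift hp ho y hT
    ext1 f
    change io hp x (σ := σ) (reix hp (fun n : ℤ => n) (fun n => b n / a n) C hbd
      (fun _ _ _ _ h => h) (pr hp ho y (T f))) = T (io hp x (σ := σ) (reix hp (fun n : ℤ => n)
        (fun n => b n / a n) C hbd (fun _ _ _ _ h => h) (pr hp ho y f)))
    rw [io_comm hp ho x hT W hW, pr_comm hp ho y hT W' hW']
    congr 1
    ext n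
    obtain ⟨m, rfl⟩ : ∃ m, n = m + 1 := ⟨n - 1, by ring⟩
    rw [reix_apply]
    have h1 := perm_apply hp hW' (pr hp ho y f) m
    have h2 := perm_apply hp hW (reix hp (fun n : ℤ => n)
        (fun n => b n / a n) C hbd (fun _ _ _ _ h => h) (pr hp ho y f)) m
    rw [shiftPerm_apply] at h1 h2
    rw [h1, h2, reix_apply, ha, hb]
    have := hane m
    have := hv ((σ ^ m) y)
    field_simp

end conj

end Pool.Agent.U38.HP
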