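import Pool.Agent.U38.HP.Cls

/-!
# The reduction to one bilateral weighted shift
-/

set_option autoImplicit false
set_option linter.unusedSectionVars false

open Filter Topology
open scoped ENNReal

namespace Pool.Agent.U38.HP

variable {p : ℝ≥0∞} [Fact (1 ≤ p)]

/-- `W e_n = w n e_(n+1)` for all integers `n` -/
def IsShift (w : ℤ → ℂ) (W : L p ℤ →L[ℂ] L p ℤ) : Prop :=
  ∀ n : ℤ, W (e p n) = w n • e p (n + 1)

theorem isShift_iff (w : ℤ → ℂ) (W : L p ℤ →L[ℂ] L p ℤ) : IsShift w W ↔ IsMono shiftPerm w W :=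
  Iff.rfl

theorem hyper_iff (hp : p ≠ ∞) {I : Type} {σ : Equiv.Perm I} {v : I → ℂ}
    {T : L p I →L[ℂ] L p I} (hT : IsMono σ v T) (hv : ∀ i, v i ≠ 0) (ho : InfiniteOrbits σ)
    (hc : ∀ y z, Comparable σ v y z) (x : I) (W : L p ℤ →L[ℂ] L p ℤ)
    (hW : IsShift (fun n => v ((σ ^ n) x)) W) : HasHyper T ↔ HasHyper W := by
  have hcomm : ∀ (X : Type) [NormedAddCommGroup X] [NormedSpace ℂ X] (A B : X →L[ℂ] X),
      B * A = A * B → ∀ y, B (A y) = A (B y) := by
    intro X _ _ A B h y
    have := congrArg (fun S : X →L[ℂ] X => S y) h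
    simpa using this
  set π := pr hp ho x with hπ
  set ι := io hp x (σ := σ) with hι
  have hpi : ∀ f, π (T f) = W (π f) := pr_comm hp ho x hT W hW
  have hio : ∀ u, T (ι u) = ι (W u) := io_comm hp ho x hT W hW
  have hpio : ∀ u, π (ι u) = u := pr_io hp ho x
  constructor
  · rintro ⟨M, hMc, hM0, hM1, hM⟩
    refine ⟨M.comap (ι : L p ℤ →ₗ[ℂ] L p I), ?_, ?_, ?_, ?_⟩
    · exact hMc.preimage ι.continuous
    · intro h0
      obtain ⟨f, hf, hf0⟩ := (Submodule.ne_bot_iff M).1 hM0
      obtain ⟨y, hy⟩ : ∃ y, f y ≠ 0 := by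
        by_contra hcon
        push Not at hcon
        exact hf0 (lp.ext (funext hcon))
      obtain ⟨D, hD0, -, hD⟩ := exists_link hp ho x hv hT y (hc y x)
      have h1 : (ι.comp (D.comp (pr hp ho y))) f ∈ M := hM _ hD f hf
      have h2 : D (pr hp ho y f) ∈ M.comap (ι : L p ℤ →ₗ[ℂ] L p I) := h1
      rw [h0] at h2
      have h3 := (Submodule.mem_bot ℂ).1 h2
      have h4 : (D (pr hp ho y f)) 0 = 0 := by rw [h3]; rfl
      rw [hD0, pr_apply] at h4
      exact hy (by simpa using h4)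
    · intro h1
      apply hM1
      refine mem_of_e hp M hMc fun y => ?_
      obtain ⟨D, hD0, hDe, hD⟩ := exists_link hp ho y hv hT x (hc x y)
      have h2 : ι (e p 0) ∈ M := by
        have : (e p 0 : L p ℤ) ∈ M.comap (ι : L p ℤ →ₗ[ℂ] L p I) := by
          rw [h1]; exact Submodule.mem_top
        exact this
      have h3 := hM _ hD _ h2
      have h4 : (io hp y (σ := σ)).comp (D.comp (pr hp ho x)) (ι (e p 0)) =
          io hp y (σ := σ) (D (e p 0)) := by
        change io hp y (σ := σ) (D (π (ι (e p 0)))) = _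
        rw [hpio]
      rw [h4] at h3
      obtain ⟨c, hce⟩ := hDe 0
      have hc1 : c = 1 := by
        have h5 := hD0 (e p 0)
        rw [hce, lp.coeFn_smul, Pi.smul_apply, smul_eq_mul, e_self, mul_one] at h5
        exact h5
      rw [hce, hc1, one_smul] at h3
      have h6 : io hp y (σ := σ) (e p 0) = (e p y : L p I) := by
        ext i
        by_cases hi : ∃ n : ℤ, (σ ^ n) y = i
        · obtain ⟨n, rfl⟩ := hi
          rw [io_apply hp y ho]
          by_cases hn : n = 0
          · subst hn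
            rw [e_self]
            change (1 : ℂ) = (e p y : L p I) y
            rw [e_self]
          · rw [e_ne hn, e_ne (ho y n hn)]
        · rw [io_off hp y _ i hi, e_ne]
          rintro rfl
          exact hi ⟨0, rfl⟩
      rw [h6] at h3
      exact h3
    · intro B hB u hu
      have hBT : (ι.comp (B.comp π)) * T = T * (ι.comp (B.comp π)) := by
        ext1 f
        change ι (B (π (T f))) = T (ι (B (π f)))
        rw [hpi, hio, hcomm _ W B hB]
      have h1 := hM _ hBT (ι u) hu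
      have h2 : (ι.comp (B.comp π)) (ι u) = ι (B u) := by
        change ι (B (π (ι u))) = _
        rw [hpio]
      rw [h2] at h1
      exact h1
  · rintro ⟨N, hNc, hN0, hN1, hN⟩
    refine ⟨{ carrier := {f | ∀ B : L p I →L[ℂ] L p I, B * T = T * B → π (B f) ∈ N}
              add_mem' := ?_, zero_mem' := ?_, smul_mem' := ?_ }, ?_, ?_, ?_, ?_⟩
    · intro a b ha hb B hB
      rw [map_add, map_add]
      exact N.add_mem (ha B hB) (hb B hB)
    · intro B _
      simp
    · intro c a ha B hB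
      rw [map_smul, map_smul]
      exact N.smul_mem _ (ha B hB)
    · change IsClosed ({f | ∀ B : L p I →L[ℂ] L p I, B * T = T * B → π (B f) ∈ N} : Set (L p I))
      have : ({f | ∀ B : L p I →L[ℂ] L p I, B * T = T * B → π (B f) ∈ N} : Set (L p I)) =
          ⋂ B : {B : L p I →L[ℂ] L p I // B * T = T * B}, {f | π (B.1 f) ∈ N} := by
        ext y
        simp
      rw [this]
      exact isClosed_iInter fun B => hNc.preimage (π.continuous.comp B.1.continuous)
    · intro h0
      obtain ⟨u, hu, hu0⟩ := (Submodule.ne_bot_iff N).1 hN0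
      have h1 : ι u ∈ (⊥ : Submodule ℂ (L p I)) := by
        rw [← h0]
        intro B hB
        have hBW : (π.comp (B.comp ι)) * W = W * (π.comp (B.comp ι)) := by
          ext1 u'
          change π (B (ι (W u'))) = W (π (B (ι u')))
          rw [← hio, hcomm _ T B hB, hpi]
        exact hN _ hBW u hu
      have h2 := (Submodule.mem_bot ℂ).1 h1
      apply hu0
      rw [← hpio u, h2, map_zero]
    · intro h1
      apply hN1
      rw [Submodule.eq_top_iff']
      intro u
      have h2 : ι u ∈ (⊤ : Submodule ℂ (L p I)) := Submodule.mem_top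
      rw [← h1] at h2
      have h3 := h2 1 (by rw [one_mul, mul_one])
      have h4 : π ((1 : L p I →L[ℂ] L p I) (ι u)) = u := by
        change π (ι u) = u
        exact hpio u
      rw [h4] at h3
      exact h3
    · intro B hB f hf B' hB'
      have := hf (B' * B) (by rw [mul_assoc, hB, ← mul_assoc, hB', mul_assoc])
      exact this

/-- comparable orbits have weights which are bounded below -/
theorem lower_bound {I : Type} {σ : Equiv.Perm I} {v : I → ℂ} (hv : ∀ i, v i ≠ 0)
    (hc : ∀ y z, Comparable σ v y z) (x : I) :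
    ∃ δ : ℝ, 0 < δ ∧ ∀ n : ℤ, δ ≤ ‖v ((σ ^ n) x)‖ := by
  obtain ⟨a, b, C, ha0, hb0, ha, hb, hC⟩ := hc (σ x) x
  have hbne : ∀ n, b n ≠ 0 := ne_zero_of_rec σ v hv x b hb0 hb
  have hsh : ∀ n : ℤ, (σ ^ n) (σ x) = (σ ^ (n + 1)) x := by
    intro n
    rw [zpow_add, zpow_one]
    rfl
  have hab : ∀ n : ℤ, b (n + 1) = v x * a n := by
    intro n
    induction n using Int.induction_on with
    | zero =>
      rw [hb, hb0, ha0]
      rfl
    | succ n ih =>
      rw [hb, ih, ha, hsh]
      ring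
    | pred n ih =>
      have h1 := ha (-(n : ℤ) - 1)
      have h2 : (-(n : ℤ) - 1 + 1) = -(n : ℤ) := by ring
      rw [h2, hsh, h2] at h1
      have h3 := hb (-(n : ℤ))
      have h4 := hv ((σ ^ (-(n : ℤ))) x)
      rw [h2]
      rw [ih, h1] at h3
      have h5 : v ((σ ^ (-(n : ℤ))) x) * (v x * a (-(n : ℤ) - 1)) =
          v ((σ ^ (-(n : ℤ))) x) * b (-(n : ℤ)) := by
        rw [← h3]; ring
      exact (mul_left_cancel₀ h4 h5).symm
  have hvx : 0 < ‖v x‖ := norm_pos_iff.2 (hv x)
  refine ⟨‖v x‖ / (|C| + 1), by positivity, fun n => ?_⟩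
  have h1 : ‖b (n + 1)‖ = ‖v x‖ * ‖a n‖ := by rw [hab, norm_mul]
  have h2 : ‖b (n + 1)‖ = ‖v ((σ ^ n) x)‖ * ‖b n‖ := by rw [hb, norm_mul]
  have h3 := hC n
  have hb' : 0 < ‖b n‖ := norm_pos_iff.2 (hbne n)
  rw [div_le_iff₀ (by positivity)]
  have h4 : ‖v x‖ * ‖b n‖ ≤ (‖v ((σ ^ n) x)‖ * (|C| + 1)) * ‖b n‖ := by
    calc ‖v x‖ * ‖b n‖ ≤ ‖v x‖ * ((|C| + 1) * ‖a n‖) := by
          refine mul_le_mul_of_nonneg_left (h3.trans ?_) hvx.le
          exact mul_le_mul_of_nonneg_right (by linarith [le_abs_self C]) (norm_nonneg _)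
      _ = (|C| + 1) * (‖v x‖ * ‖a n‖) := by ring
      _ = (|C| + 1) * (‖v ((σ ^ n) x)‖ * ‖b n‖) := by rw [← h1, h2]
      _ = _ := by ring
  exact le_of_mul_le_mul_right h4 hb'

/-- the reduction -/
theorem reduction (hp : p ≠ ∞) :
    (∀ (I : Type) (τ : I → I) (w : I → ℂ) (T : L p I →L[ℂ] L p I), IsMono τ w T ∨ IsComp τ w T →
      (∃ c : ℂ, T = c • (1 : L p I →L[ℂ] L p I)) ∨ HasHyper T) ↔
    (∀ (w : ℤ → ℂ) (W : L p ℤ →L[ℂ] L p ℤ), IsShift w W →
      (∃ δ : ℝ, 0 < δ ∧ ∀ n, δ ≤ ‖w n‖) → HasHyper W) := by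
  constructor
  · intro h w W hW hδ
    rcases h ℤ (fun n => n + 1) w W (Or.inl hW) with ⟨c, hc⟩ | h
    · exfalso
      obtain ⟨δ, hδ, hn⟩ := hδ
      have h1 := hW 0
      rw [hc] at h1
      have h2 := congrArg (fun f : L p ℤ => f (0 + 1)) h1
      change c * (e p 0 : L p ℤ) (0 + 1) = w 0 * (e p (0 + 1) : L p ℤ) (0 + 1) at h2
      rw [e_ne (by norm_num), e_self, mul_zero, mul_one] at h2
      have := hn 0
      rw [← h2, norm_zero] at this
      linarith
    · exact h
  · intro h I τ w T hT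
    by_contra hcon
    push Not at hcon
    obtain ⟨hs, hn⟩ := hcon
    obtain ⟨σ, v, hm, hv, ho, hc⟩ := classify hp τ w T hT hs hn
    have hne : Nonempty I := by
      by_contra hI
      rw [not_nonempty_iff] at hI
      apply hs 0
      ext f i
      exact (hI.false i).elim
    obtain ⟨x⟩ := hne
    obtain ⟨W, hW⟩ := exists_shift hp ho x hm
    exact hn ((hyper_iff hp hm hv ho hc x W hW).2 (h _ W hW (lower_bound hv hc x)))

end Pool.Agent.U38.HP
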