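import Pool.Agent.U38.HP.Main

/-!
# Reindexing operators on `ℓ^p`
-/

set_option autoImplicit false

open Filter Topology
open scoped ENNReal

namespace Pool.Agent.U38.HP

/-- the space `ℓ^p(I)` -/
abbrev L (p : ℝ≥0∞) (I : Type) : Type := lp (fun _ : I => ℂ) p

open Classical in
/-- the unit vectors -/
noncomputable def e (p : ℝ≥0∞) {I : Type} (i : I) : L p I := lp.single p i (1 : ℂ)

variable {p : ℝ≥0∞} [Fact (1 ≤ p)]

theorem e_self {I : Type} (i : I) : (e p i : L p I) i = 1 := by
  classical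
  unfold e
  exact lp.single_apply_self (E := fun _ : I => ℂ) p i (1 : ℂ)

theorem e_ne {I : Type} {i j : I} (h : j ≠ i) : (e p i : L p I) j = 0 := by
  classical
  unfold e
  exact lp.single_apply_ne (E := fun _ : I => ℂ) p i (1 : ℂ) h

theorem e_ne_zero {I : Type} (i : I) : (e p i : L p I) ≠ 0 := by
  intro h
  have := e_self (p := p) i
  rw [h] at this
  simp at this

theorem norm_e {I : Type} (i : I) : ‖(e p i : L p I)‖ = 1 := by
  classical
  have hp0 : (0 : ℝ≥0∞) < p := zero_lt_one.trans_le Fact.out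
  unfold e
  rw [lp.norm_single hp0]
  simp

/-- coordinate functionals -/
noncomputable def ev (p : ℝ≥0∞) [Fact (1 ≤ p)] {I : Type} (i : I) : L p I →L[ℂ] ℂ :=
  lp.evalCLM ℂ (fun _ : I => ℂ) p i

theorem ev_apply {I : Type} (i : I) (f : L p I) : ev p i f = f i := rfl

theorem norm_ev_le {I : Type} (i : I) : ‖ev p (I := I) i‖ ≤ 1 := by
  refine ContinuousLinearMap.opNorm_le_bound _ zero_le_one fun f => ?_
  rw [one_mul, ev_apply]
  exact lp.norm_apply_le_norm (zero_lt_one.trans_le (Fact.out : (1 : ℝ≥0∞) ≤ p)).ne' f i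

theorem ev_ne_zero {I : Type} (i : I) : ev p (I := I) i ≠ 0 := by
  intro h
  have := congrArg (fun S : L p I →L[ℂ] ℂ => S (e p i)) h
  simp only [ev_apply, e_self] at this
  simp at this

section dense

variable (hp : p ≠ ∞)
include hp

/-- two operators which agree on the unit vectors are equal -/
theorem ext_e {I : Type} {Y : Type} [NormedAddCommGroup Y] [NormedSpace ℂ Y]
    {S T : L p I →L[ℂ] Y} (h : ∀ i, S (e p i) = T (e p i)) : S = T := by
  classical
  ext f
  have h1 := lp.hasSum_single hp f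
  have h2 := h1.mapL S
  have h3 := h1.mapL T
  have h4 : (fun i => S (lp.single p i (f i))) = fun i => T (lp.single p i (f i)) := by
    funext i
    have h5 : lp.single p i (f i) = (f i) • (e p i : L p I) := by
      unfold e
      rw [← lp.single_smul]
      simp
    rw [h5, map_smul, map_smul, h i]
  rw [h4] at h2
  exact h2.unique h3

theorem mem_of_e {I : Type} (M : Submodule ℂ (L p I)) (hM : IsClosed (M : Set (L p I)))
    (h : ∀ i, e p i ∈ M) : M = ⊤ := by
  classical
  rw [Submodule.eq_top_iff']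
  intro f
  have h1 := lp.hasSum_single hp f
  refine hM.mem_of_tendsto h1 (Eventually.of_forall fun s => ?_)
  refine M.sum_mem fun i _ => ?_
  have h5 : lp.single p i (f i) = (f i) • (e p i : L p I) := by
    unfold e
    rw [← lp.single_smul]
    simp
  rw [h5]
  exact M.smul_mem _ (h i)

end dense

section reix

variable {A B : Type}

theorem reix_bound (hp : p ≠ ∞) (g : A → B) (c : A → ℂ) (C : ℝ) (hC : ∀ a, ‖c a‖ ≤ C)
    (hinj : ∀ a a', c a ≠ 0 → c a' ≠ 0 → g a = g a' → a = a') (f : L p B) (s : Finset A) :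
    ∑ a ∈ s, ‖c a * f (g a)‖ ^ p.toReal ≤ (|C| * ‖f‖) ^ p.toReal := by
  classical
  have hp0 : 0 < p.toReal := ENNReal.toReal_pos (zero_lt_one.trans_le Fact.out).ne' hp
  have h1 : ∑ a ∈ s, ‖c a * f (g a)‖ ^ p.toReal =
      ∑ a ∈ s with c a ≠ 0, ‖c a * f (g a)‖ ^ p.toReal := by
    symm
    refine Finset.sum_filter_of_ne fun a _ ha => ?_
    intro h0
    apply ha
    rw [h0, zero_mul, norm_zero, Real.zero_rpow hp0.ne']
  rw [h1]
  calc ∑ a ∈ s with c a ≠ 0, ‖c a * f (g a)‖ ^ p.toReal
      ≤ ∑ a ∈ s with c a ≠ 0, |C| ^ p.toReal * ‖f (g a)‖ ^ p.toReal := by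
        refine Finset.sum_le_sum fun a _ => ?_
        rw [norm_mul, ← Real.mul_rpow (abs_nonneg _) (norm_nonneg _)]
        refine Real.rpow_le_rpow (by positivity) ?_ hp0.le
        exact mul_le_mul_of_nonneg_right ((hC a).trans (le_abs_self C)) (norm_nonneg _)
    _ = |C| ^ p.toReal * ∑ a ∈ s with c a ≠ 0, ‖f (g a)‖ ^ p.toReal := by rw [Finset.mul_sum]
    _ = |C| ^ p.toReal * ∑ b ∈ (s.filter fun a => c a ≠ 0).image g, ‖f b‖ ^ p.toReal := by
        rw [Finset.sum_image]
        intro a ha a' ha' h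
        rw [Finset.coe_filter] at ha ha'
        exact hinj a a' ha.2 ha'.2 h
    _ ≤ |C| ^ p.toReal * ‖f‖ ^ p.toReal :=
        mul_le_mul_of_nonneg_left (lp.sum_rpow_le_norm_rpow hp0 f _) (by positivity)
    _ = (|C| * ‖f‖) ^ p.toReal := by rw [Real.mul_rpow (abs_nonneg _) (norm_nonneg _)]

/-- the operator `(R f)(a) = c a f(g a)`; `g` is injective where `c` is not zero -/
noncomputable def reix (hp : p ≠ ∞) (g : A → B) (c : A → ℂ) (C : ℝ) (hC : ∀ a, ‖c a‖ ≤ C)
    (hinj : ∀ a a', c a ≠ 0 → c a' ≠ 0 → g a = g a' → a = a') : L p B →L[ℂ] L p A :=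
  LinearMap.mkContinuous
    { toFun := fun f => ⟨fun a => c a * f (g a),
        memℓp_gen' (reix_bound hp g c C hC hinj f)⟩
      map_add' := fun f f' => by
        ext a
        change c a * (f + f') (g a) = c a * f (g a) + c a * f' (g a)
        rw [lp.coeFn_add, Pi.add_apply, mul_add]
      map_smul' := fun r f => by
        ext a
        change c a * (r • f) (g a) = r * (c a * f (g a))
        rw [lp.coeFn_smul, Pi.smul_apply, smul_eq_mul]
        ring }
    |C| (fun f => by
      have hp0 : 0 < p.toReal := ENNReal.toReal_pos (zero_lt_one.trans_le Fact.out).ne' hp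
      exact lp.norm_le_of_forall_sum_le hp0 (by positivity) (reix_bound hp g c C hC hinj f))

theorem reix_apply (hp : p ≠ ∞) (g : A → B) (c : A → ℂ) (C : ℝ) (hC : ∀ a, ‖c a‖ ≤ C)
    (hinj : ∀ a a', c a ≠ 0 → c a' ≠ 0 → g a = g a' → a = a') (f : L p B) (a : A) :
    (reix hp g c C hC hinj f) a = c a * f (g a) := rfl

end reix

end Pool.Agent.U38.HP
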