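import Mathlib

/-!
# Hyperinvariant subspaces from pairs of orbits; weighted composition operators on `ℓ^p(I)`
-/

set_option autoImplicit false

open Filter Topology
open scoped ENNReal

namespace Pool.Agent.U38.HP

/-- `T` has a closed subspace, neither `{0}` nor the whole space, which is invariant under every
bounded operator commuting with `T` -/
def HasHyper {X : Type} [NormedAddCommGroup X] [NormedSpace ℂ X] (T : X →L[ℂ] X) : Prop :=
  ∃ M : Submodule ℂ X, IsClosed (M : Set X) ∧ M ≠ ⊥ ∧ M ≠ ⊤ ∧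
    ∀ B : X →L[ℂ] X, B * T = T * B → ∀ x ∈ M, B x ∈ M

section general

variable {X : Type} [NormedAddCommGroup X] [NormedSpace ℂ X]

/-- if `φ (B x) = 0` for all `B` commuting with `T`, then `T` has a nontrivial hyperinvariant
subspace -/
theorem hyp_of_pair (T : X →L[ℂ] X) (x : X) (φ : X →L[ℂ] ℂ) (hx : x ≠ 0) (hφ : φ ≠ 0)
    (h : ∀ B : X →L[ℂ] X, B * T = T * B → φ (B x) = 0) : HasHyper T := by
  refine ⟨{ carrier := {y | ∀ B : X →L[ℂ] X, B * T = T * B → φ (B y) = 0}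
            add_mem' := ?_, zero_mem' := ?_, smul_mem' := ?_ }, ?_, ?_, ?_, ?_⟩
  · intro a b ha hb B hB
    rw [map_add, map_add, ha B hB, hb B hB, add_zero]
  · intro B _
    simp
  · intro c a ha B hB
    rw [map_smul, map_smul, ha B hB, smul_zero]
  · have : ({y | ∀ B : X →L[ℂ] X, B * T = T * B → φ (B y) = 0} : Set X) =
        ⋂ B : {B : X →L[ℂ] X // B * T = T * B}, {y | φ (B.1 y) = 0} := by
      ext y
      simp
    change IsClosed ({y | ∀ B : X →L[ℂ] X, B * T = T * B → φ (B y) = 0} : Set X)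
    rw [this]
    refine isClosed_iInter fun B => ?_
    exact isClosed_eq (φ.continuous.comp B.1.continuous) continuous_const
  · intro h0
    have : x ∈ (⊥ : Submodule ℂ X) := by
      rw [← h0]
      exact h
    exact hx ((Submodule.mem_bot ℂ).1 this)
  · intro h0
    apply hφ
    ext y
    have : y ∈ (⊤ : Submodule ℂ X) := Submodule.mem_top
    rw [← h0] at this
    have := this 1 (by rw [one_mul, mul_one])
    simpa using this
  · intro B hB y hy B' hB'
    have := hy (B' * B) (by rw [mul_assoc, hB, ← mul_assoc, hB', mul_assoc])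
    simpa using this

/-- `x` and `φ` are linked orbits of `T` and of its adjoint -/
def Linked (T : X →L[ℂ] X) (x : ℕ → X) (φ : ℕ → (X →L[ℂ] ℂ)) : Prop :=
  (∀ n, T (x n) = x (n + 1) ∧ (φ (n + 1)).comp T = φ n) ∨
    (∀ n, T (x (n + 1)) = x n ∧ (φ n).comp T = φ (n + 1))

theorem linked_const {T : X →L[ℂ] X} {x : ℕ → X} {φ : ℕ → (X →L[ℂ] ℂ)} (h : Linked T x φ)
    (B : X →L[ℂ] X) (hB : B * T = T * B) (n : ℕ) : φ n (B (x n)) = φ 0 (B (x 0)) := by
  have hBT : ∀ y, B (T y) = T (B y) := fun y => by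
    have := congrArg (fun S : X →L[ℂ] X => S y) hB
    simpa using this
  induction n with
  | zero => rfl
  | succ n ih =>
    rcases h with h | h
    · rw [← ih, ← (h n).1, hBT, ← (h n).2]
      rfl
    · rw [← ih, ← (h n).2, ← (h n).1, hBT]
      rfl

theorem hyp_of_linked (T : X →L[ℂ] X) (x : ℕ → X) (φ : ℕ → (X →L[ℂ] ℂ)) (h : Linked T x φ)
    (hx : x 0 ≠ 0) (hφ : φ 0 ≠ 0) (hinf : ∀ ε : ℝ, 0 < ε → ∃ n, ‖x n‖ * ‖φ n‖ < ε) :
    HasHyper T := by
  refine hyp_of_pair T (x 0) (φ 0) hx hφ fun B hB => ?_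
  by_contra hne
  have h1 : 0 < ‖φ 0 (B (x 0))‖ := norm_pos_iff.2 hne
  have h2 : 0 < ‖φ 0 (B (x 0))‖ / (‖B‖ + 1) := by positivity
  obtain ⟨n, hn⟩ := hinf _ h2
  rw [lt_div_iff₀ (by positivity)] at hn
  have h3 : ‖φ 0 (B (x 0))‖ ≤ ‖φ n‖ * (‖B‖ * ‖x n‖) := by
    rw [← linked_const h B hB n]
    exact ((φ n).le_opNorm _).trans (mul_le_mul_of_nonneg_left (B.le_opNorm _) (norm_nonneg _))
  have h4 : ‖φ n‖ * (‖B‖ * ‖x n‖) ≤ ‖x n‖ * ‖φ n‖ * (‖B‖ + 1) := by
    have : 0 ≤ ‖x n‖ * ‖φ n‖ := by positivity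
    nlinarith
  linarith

/-- the two-sided version -/
theorem hyp_of_bilateral (T : X →L[ℂ] X) (x : ℤ → X) (φ : ℤ → (X →L[ℂ] ℂ))
    (h1 : ∀ n, T (x n) = x (n + 1)) (h2 : ∀ n, (φ (n + 1)).comp T = φ n)
    (hx : x 0 ≠ 0) (hφ : φ 0 ≠ 0) (hinf : ∀ ε : ℝ, 0 < ε → ∃ n, ‖x n‖ * ‖φ n‖ < ε) :
    HasHyper T := by
  by_cases hcase : ∀ ε : ℝ, 0 < ε → ∃ n : ℕ, ‖x n‖ * ‖φ n‖ < ε
  · exact hyp_of_linked T (fun n : ℕ => x n) (fun n : ℕ => φ n)
      (Or.inl fun n => ⟨by rw [h1]; push_cast; rfl, by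
        have := h2 n
        push_cast
        exact this⟩) hx hφ hcase
  · push Not at hcase
    obtain ⟨ε₀, hε₀, hn⟩ := hcase
    refine hyp_of_linked T (fun n : ℕ => x (-n)) (fun n : ℕ => φ (-n)) (Or.inr fun n => ⟨?_, ?_⟩)
      (by simpa using hx) (by simpa using hφ) ?_
    · rw [h1]
      push_cast
      congr 1
      ring
    · have h3 := h2 (-((n + 1 : ℕ) : ℤ))
      have h4 : -((n + 1 : ℕ) : ℤ) + 1 = -(n : ℤ) := by push_cast; ring
      rw [h4] at h3
      exact h3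
    · intro ε hε
      obtain ⟨m, hm⟩ := hinf (min ε ε₀) (lt_min hε hε₀)
      rcases Int.eq_nat_or_neg m with ⟨k, rfl | rfl⟩
      · exact absurd (hm.trans_le (min_le_right _ _)) (not_lt.2 (hn k))
      · exact ⟨k, hm.trans_le (min_le_left _ _)⟩

theorem hyp_of_eig (T : X →L[ℂ] X) (c : ℂ) (x : X) (hx : x ≠ 0) (h : T x = c • x)
    (hT : T ≠ c • (1 : X →L[ℂ] X)) : HasHyper T := by
  have h0 : T - c • (1 : X →L[ℂ] X) ≠ 0 := sub_ne_zero.2 hT
  refine ⟨LinearMap.ker ((T - c • (1 : X →L[ℂ] X) : X →L[ℂ] X) : X →ₗ[ℂ] X), ?_, ?_, ?_, ?_⟩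
  · exact ContinuousLinearMap.isClosed_ker (T - c • (1 : X →L[ℂ] X))
  · intro hb
    have : x ∈ LinearMap.ker ((T - c • (1 : X →L[ℂ] X) : X →L[ℂ] X) : X →ₗ[ℂ] X) := by
      rw [LinearMap.mem_ker]
      simp [h]
    rw [hb] at this
    exact hx ((Submodule.mem_bot ℂ).1 this)
  · intro ht
    apply h0
    ext y
    have : y ∈ LinearMap.ker ((T - c • (1 : X →L[ℂ] X) : X →L[ℂ] X) : X →ₗ[ℂ] X) := by
      rw [ht]; exact Submodule.mem_top
    exact LinearMap.mem_ker.1 this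
  · intro B hB y hy
    have hBT : ∀ y, B (T y) = T (B y) := fun y => by
      have := congrArg (fun S : X →L[ℂ] X => S y) hB
      simpa using this
    rw [LinearMap.mem_ker] at hy ⊢
    have h1 : T y = c • y := by
      have : T y - c • y = 0 := by simpa using hy
      exact sub_eq_zero.1 this
    have : T (B y) = c • B y := by rw [← hBT, h1, map_smul]
    simp [this]

theorem hyp_of_coeig (T : X →L[ℂ] X) (c : ℂ) (φ : X →L[ℂ] ℂ) (hφ : φ ≠ 0)
    (h : φ.comp T = c • φ) (hT : T ≠ c • (1 : X →L[ℂ] X)) : HasHyper T := by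
  have h0 : T - c • (1 : X →L[ℂ] X) ≠ 0 := sub_ne_zero.2 hT
  obtain ⟨y, hy⟩ : ∃ y, (T - c • (1 : X →L[ℂ] X)) y ≠ 0 := by
    by_contra hcon
    push Not at hcon
    exact h0 (ContinuousLinearMap.ext hcon)
  refine hyp_of_pair T _ φ hy hφ fun B hB => ?_
  have hBT : ∀ y, B (T y) = T (B y) := fun y => by
    have := congrArg (fun S : X →L[ℂ] X => S y) hB
    simpa using this
  have h1 : ∀ z, φ (T z) = c * φ z := fun z => by
    have := congrArg (fun S : X →L[ℂ] ℂ => S z) h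
    simpa using this
  have : (T - c • (1 : X →L[ℂ] X)) y = T y - c • y := by simp
  rw [this, map_sub, map_sub, hBT, h1, map_smul, map_smul, smul_eq_mul, sub_self]

/-- a vector with `T ^ n x = c x`, `n ≥ 1`, gives an eigenvalue -/
theorem hyp_of_periodic (T : X →L[ℂ] X) (hT : ∀ c : ℂ, T ≠ c • (1 : X →L[ℂ] X)) (n : ℕ)
    (hn : 1 ≤ n) (c : ℂ) (x : X) (hx : x ≠ 0) (h : (T ^ n) x = c • x) : HasHyper T := by
  classical
  let V : Submodule ℂ X := Submodule.span ℂ (Set.range fun k : Fin n => (T ^ (k : ℕ)) x)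
  have hfin : FiniteDimensional ℂ V := FiniteDimensional.span_of_finite ℂ (Set.finite_range _)
  have hxV : x ∈ V := Submodule.subset_span ⟨⟨0, hn⟩, by simp⟩
  have hinv : ∀ y ∈ V, (T : X →ₗ[ℂ] X) y ∈ V := by
    intro y hy
    induction hy using Submodule.span_induction with
    | mem z hz =>
      obtain ⟨k, rfl⟩ := hz
      by_cases hk : (k : ℕ) + 1 < n
      · refine Submodule.subset_span ⟨⟨(k : ℕ) + 1, hk⟩, ?_⟩
        change (T ^ ((k : ℕ) + 1)) x = T ((T ^ (k : ℕ)) x)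
        rw [pow_succ']
        rfl
      · have hk' : (k : ℕ) + 1 = n := by have := k.2; omega
        have h5 : (T ^ ((k : ℕ) + 1)) x = c • x := by rw [hk', h]
        have : (T : X →ₗ[ℂ] X) ((T ^ (k : ℕ)) x) = c • x := by
          rw [← h5, pow_succ']
          rfl
        change (T : X →ₗ[ℂ] X) ((T ^ (k : ℕ)) x) ∈ V
        rw [this]
        exact V.smul_mem _ hxV
    | zero => simp
    | add a b _ _ ha hb => rw [map_add]; exact V.add_mem ha hb
    | smul r a _ ha => rw [map_smul]; exact V.smul_mem _ ha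
  have hnt : Nontrivial V := ⟨⟨⟨x, hxV⟩, 0, fun hcon => hx (by simpa using congrArg Subtype.val hcon)⟩⟩
  obtain ⟨μ, hμ⟩ := Module.End.exists_eigenvalue (LinearMap.restrict (T : X →ₗ[ℂ] X) hinv)
  obtain ⟨v, hv⟩ := hμ.exists_hasEigenvector
  refine hyp_of_eig T μ (v : X) ?_ ?_ (hT μ)
  · intro h0
    exact hv.2 (Subtype.ext h0)
  · have := congrArg Subtype.val hv.apply_eq_smul
    simpa using this

end general

end Pool.Agent.U38.HP
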