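import Pool.Agent.U38.HP.Lp

/-!
# Weighted permutation operators on `ℓ^p(I)` and weighted composition operators
-/

set_option autoImplicit false
set_option linter.unusedSectionVars false

open Filter Topology
open scoped ENNReal

namespace Pool.Agent.U38.HP

variable {p : ℝ≥0∞} [Fact (1 ≤ p)]

/-- `T e_i = w i e_(τ i)` for all `i` -/
def IsMono {I : Type} (τ : I → I) (w : I → ℂ) (T : L p I →L[ℂ] L p I) : Prop :=
  ∀ i, T (e p i) = w i • e p (τ i)

/-- `(T f)(i) = w i f(τ i)` for all `f` and `i` -/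
def IsComp {I : Type} (τ : I → I) (w : I → ℂ) (T : L p I →L[ℂ] L p I) : Prop :=
  ∀ (f : L p I) (i : I), T f i = w i * f (τ i)

/-- all orbits of the permutation are infinite -/
def InfiniteOrbits {I : Type} (σ : Equiv.Perm I) : Prop :=
  ∀ (x : I) (n : ℤ), n ≠ 0 → (σ ^ n) x ≠ x

/-- the products `a n` and `b n` of the weights along the orbits of `x` and of `y` satisfy
`|b n| ≤ C |a n|` for all integers `n` -/
def Comparable {I : Type} (σ : Equiv.Perm I) (v : I → ℂ) (x y : I) : Prop :=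
  ∃ (a b : ℤ → ℂ) (C : ℝ), a 0 = 1 ∧ b 0 = 1 ∧ (∀ n : ℤ, a (n + 1) = v ((σ ^ n) x) * a n) ∧
    (∀ n : ℤ, b (n + 1) = v ((σ ^ n) y) * b n) ∧ ∀ n : ℤ, ‖b n‖ ≤ C * ‖a n‖

section perm

variable {I : Type} (hp : p ≠ ∞) {σ : Equiv.Perm I} {v : I → ℂ} {T : L p I →L[ℂ] L p I}
include hp

theorem perm_apply (hT : IsMono σ v T) (f : L p I) (i : I) : (T f) (σ i) = v i * f i := by
  have h : (ev p (σ i)).comp T = v i • ev p i := by
    apply ext_e hp
    intro j
    change (T (e p j)) (σ i) = v i * (e p j : L p I) i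
    rw [hT j, lp.coeFn_smul, Pi.smul_apply, smul_eq_mul]
    by_cases hij : i = j
    · subst hij
      rw [e_self, e_self]
    · rw [e_ne (fun h => hij (σ.injective h)), e_ne hij]
      ring
  have := congrArg (fun S : L p I →L[ℂ] ℂ => S f) h
  exact this

theorem mono_of_apply (h : ∀ (f : L p I) (i : I), (T f) (σ i) = v i * f i) : IsMono σ v T := by
  intro j
  ext k
  obtain ⟨i, rfl⟩ := σ.surjective k
  rw [h, lp.coeFn_smul, Pi.smul_apply, smul_eq_mul]
  by_cases hij : i = j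
  · subst hij
    rw [e_self, e_self]
  · rw [e_ne (fun h => hij (σ.injective h)), e_ne hij]
    ring

end perm

section coc

variable {I : Type} (σ : Equiv.Perm I) (v : I → ℂ)

/-- products of weights along an orbit -/
noncomputable def coc (x : I) : ℤ → ℂ
  | (n : ℕ) => ∏ k ∈ Finset.range n, v ((σ ^ (k : ℤ)) x)
  | Int.negSucc n => (∏ k ∈ Finset.range (n + 1), v ((σ ^ (-((k : ℤ) + 1))) x))⁻¹

theorem coc_zero (x : I) : coc σ v x 0 = 1 := by
  change ∏ k ∈ Finset.range 0, v ((σ ^ (k : ℤ)) x) = 1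
  simp

theorem coc_succ (hv : ∀ i, v i ≠ 0) (x : I) (n : ℤ) :
    coc σ v x (n + 1) = v ((σ ^ n) x) * coc σ v x n := by
  rcases n with n | n
  · change ∏ k ∈ Finset.range (n + 1), v ((σ ^ (k : ℤ)) x) =
      v ((σ ^ (n : ℤ)) x) * ∏ k ∈ Finset.range n, v ((σ ^ (k : ℤ)) x)
    rw [Finset.prod_range_succ, mul_comm]
  · rcases n with _ | n
    · change ∏ k ∈ Finset.range 0, v ((σ ^ (k : ℤ)) x) =
        v ((σ ^ (Int.negSucc 0)) x) * (∏ k ∈ Finset.range (0 + 1), v ((σ ^ (-((k : ℤ) + 1))) x))⁻¹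
      have h0 : (Int.negSucc 0 : ℤ) = -1 := rfl
      rw [h0]
      simp only [Finset.range_zero, Finset.prod_empty, zero_add, Finset.range_one,
        Finset.prod_singleton, Nat.cast_zero]
      rw [mul_inv_cancel₀ (hv _)]
    · have h0 : (Int.negSucc (n + 1) : ℤ) + 1 = Int.negSucc n := by
        rw [Int.negSucc_eq, Int.negSucc_eq]; push_cast; ring
      rw [h0]
      change (∏ k ∈ Finset.range (n + 1), v ((σ ^ (-((k : ℤ) + 1))) x))⁻¹ =
        v ((σ ^ (Int.negSucc (n + 1))) x) *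
          (∏ k ∈ Finset.range (n + 1 + 1), v ((σ ^ (-((k : ℤ) + 1))) x))⁻¹
      rw [Finset.prod_range_succ _ (n + 1), mul_inv]
      have h1 : (Int.negSucc (n + 1) : ℤ) = -(((n + 1 : ℕ) : ℤ) + 1) := by
        rw [Int.negSucc_eq]
      rw [h1]
      have h2 := hv ((σ ^ (-(((n + 1 : ℕ) : ℤ) + 1))) x)
      field_simp

theorem ne_zero_of_rec (hv : ∀ i, v i ≠ 0) (x : I) (a : ℤ → ℂ) (h0 : a 0 = 1)
    (h : ∀ n : ℤ, a (n + 1) = v ((σ ^ n) x) * a n) (n : ℤ) : a n ≠ 0 := by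
  induction n using Int.induction_on with
  | zero => rw [h0]; exact one_ne_zero
  | succ n ih => rw [h]; exact mul_ne_zero (hv _) ih
  | pred n ih =>
    intro hcon
    apply ih
    have := h (-(n : ℤ) - 1)
    rw [hcon, mul_zero] at this
    rw [← this]
    congr 1
    ring

end coc

section orbits

variable {I : Type} (hp : p ≠ ∞) {σ : Equiv.Perm I} {v : I → ℂ} {T : L p I →L[ℂ] L p I}

include hp in
/-- without nontrivial hyperinvariant subspaces all weight products are comparable -/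
theorem comparable_of_not (hv : ∀ i, v i ≠ 0) (hT : IsMono σ v T) (hn : ¬ HasHyper T) (x y : I) :
    Comparable σ v x y := by
  set a := coc σ v x with ha
  set b := coc σ v y with hb
  have ha0 : ∀ n, a n ≠ 0 := ne_zero_of_rec σ v hv x a (coc_zero σ v x) (coc_succ σ v hv x)
  have hb0 : ∀ n, b n ≠ 0 := ne_zero_of_rec σ v hv y b (coc_zero σ v y) (coc_succ σ v hv y)
  by_cases hinf : ∀ ε : ℝ, 0 < ε → ∃ n : ℤ,
      ‖a n • (e p ((σ ^ n) x) : L p I)‖ * ‖(b n)⁻¹ • ev p ((σ ^ n) y)‖ < ε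
  · exfalso
    apply hn
    refine hyp_of_bilateral T (fun n => a n • (e p ((σ ^ n) x) : L p I))
      (fun n => (b n)⁻¹ • ev p ((σ ^ n) y)) (fun n => ?_) (fun n => ?_) ?_ ?_ hinf
    · change T (a n • (e p ((σ ^ n) x) : L p I)) = a (n + 1) • (e p ((σ ^ (n + 1)) x) : L p I)
      rw [map_smul, hT, smul_smul, ha, coc_succ σ v hv, mul_comm, zpow_add_one' σ n]
      rfl
    · ext f
      change (b (n + 1))⁻¹ * (T f) ((σ ^ (n + 1)) y) = (b n)⁻¹ * f ((σ ^ n) y)
      have h1 : (σ ^ (n + 1)) y = σ ((σ ^ n) y) := by rw [zpow_add_one' σ n]; rfl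
      rw [h1, perm_apply hp hT, hb, coc_succ σ v hv, mul_inv]
      have := hv ((σ ^ n) y)
      field_simp
    · change a 0 • (e p ((σ ^ (0 : ℤ)) x) : L p I) ≠ 0
      exact smul_ne_zero (ha0 0) (e_ne_zero _)
    · change (b 0)⁻¹ • ev p ((σ ^ (0 : ℤ)) y) ≠ 0
      exact smul_ne_zero (inv_ne_zero (hb0 0)) (ev_ne_zero _)
  · push Not at hinf
    obtain ⟨ε, hε, h⟩ := hinf
    refine ⟨a, b, ε⁻¹, coc_zero σ v x, coc_zero σ v y, coc_succ σ v hv x, coc_succ σ v hv y,
      fun n => ?_⟩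
    have h1 := h n
    rw [norm_smul, norm_smul, norm_e, mul_one, norm_inv] at h1
    have h2 : ε ≤ ‖a n‖ * ‖b n‖⁻¹ := by
      refine h1.trans ?_
      refine mul_le_mul_of_nonneg_left ?_ (norm_nonneg _)
      have := norm_ev_le (p := p) ((σ ^ n) y)
      calc ‖b n‖⁻¹ * ‖ev p ((σ ^ n) y)‖ ≤ ‖b n‖⁻¹ * 1 :=
            mul_le_mul_of_nonneg_left this (by positivity)
        _ = ‖b n‖⁻¹ := mul_one _
    have h3 : 0 < ‖b n‖ := norm_pos_iff.2 (hb0 n)
    rw [← div_eq_mul_inv, le_div_iff₀ h3] at h2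
    rw [inv_mul_eq_div, le_div_iff₀ hε]
    linarith
where
  zpow_add_one' (σ : Equiv.Perm I) (n : ℤ) : σ ^ (n + 1) = σ * σ ^ n := by
    rw [add_comm, zpow_add, zpow_one]

end orbits

end Pool.Agent.U38.HP
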