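import Pool.Agent.U38.HP.VCls

/-!
# Matrix weights: operators without hyperinvariant subspaces are tame
-/

set_option autoImplicit false
set_option linter.unusedSectionVars false

open Filter Topology
open scoped ENNReal

namespace Pool.Agent.U38.HP

variable {p : ℝ≥0∞} [Fact (1 ≤ p)]
variable {I Y : Type} [NormedAddCommGroup Y] [NormedSpace ℂ Y]

/-- `C` extends to a bounded sequence of operators which intertwine the weights along the orbits of
`a` and of `b` -/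
def Adm (σ : Equiv.Perm I) (V : I → (Y →L[ℂ] Y)) (a b : I) (C : Y →L[ℂ] Y) : Prop :=
  ∃ (E : ℤ → (Y →L[ℂ] Y)) (K : ℝ), E 0 = C ∧
    (∀ n : ℤ, (E (n + 1)).comp (V ((σ ^ n) a)) = (V ((σ ^ n) b)).comp (E n)) ∧ ∀ n, ‖E n‖ ≤ K

variable {σ : Equiv.Perm I} {V : I → (Y →L[ℂ] Y)}

theorem adm_one (a : I) : Adm σ V a a 1 :=
  ⟨fun _ => 1, ‖(1 : Y →L[ℂ] Y)‖, rfl, fun _ => rfl, fun _ => le_rfl⟩

theorem adm_add {a b : I} {C D : Y →L[ℂ] Y} (hC : Adm σ V a b C) (hD : Adm σ V a b D) :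
    Adm σ V a b (C + D) := by
  obtain ⟨E, K, h1, h2, h3⟩ := hC
  obtain ⟨E', K', h1', h2', h3'⟩ := hD
  refine ⟨fun n => E n + E' n, K + K', by rw [← h1, ← h1'], fun n => ?_, fun n =>
    (norm_add_le _ _).trans (add_le_add (h3 n) (h3' n))⟩
  rw [ContinuousLinearMap.add_comp, ContinuousLinearMap.comp_add, h2, h2']

theorem adm_smul {a b : I} (c : ℂ) {C : Y →L[ℂ] Y} (hC : Adm σ V a b C) :
    Adm σ V a b (c • C) := by
  obtain ⟨E, K, h1, h2, h3⟩ := hC
  refine ⟨fun n => c • E n, ‖c‖ * K, by rw [← h1], fun n => ?_, fun n => ?_⟩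
  · rw [ContinuousLinearMap.smul_comp, ContinuousLinearMap.comp_smul, h2]
  · rw [norm_smul]
    exact mul_le_mul_of_nonneg_left (h3 n) (norm_nonneg _)

theorem adm_mul {a b c : I} {C D : Y →L[ℂ] Y} (hC : Adm σ V a b C) (hD : Adm σ V b c D) :
    Adm σ V a c (D.comp C) := by
  obtain ⟨E, K, h1, h2, h3⟩ := hC
  obtain ⟨E', K', h1', h2', h3'⟩ := hD
  refine ⟨fun n => (E' n).comp (E n), K' * K, by rw [← h1, ← h1'], fun n => ?_, fun n => ?_⟩
  · rw [ContinuousLinearMap.comp_assoc, h2, ← ContinuousLinearMap.comp_assoc, h2',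
      ContinuousLinearMap.comp_assoc]
  · exact (ContinuousLinearMap.opNorm_comp_le _ _).trans
      (mul_le_mul (h3' n) (h3 n) (norm_nonneg _) ((norm_nonneg _).trans (h3' n)))

theorem adm_of_comm (hp : p ≠ ∞) {T : LV p I Y →L[ℂ] LV p I Y} (hT : VMono σ V T) (a b : I)
    (B : LV p I Y →L[ℂ] LV p I Y) (hB : B * T = T * B) :
    Adm σ V a b ((vv p b).comp (B.comp (sg p a))) := by
  have hBT : ∀ y, B (T y) = T (B y) := fun y => by
    have := congrArg (fun S : LV p I Y →L[ℂ] LV p I Y => S y) hB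
    simpa using this
  refine ⟨fun n => (vv p ((σ ^ n) b)).comp (B.comp (sg p ((σ ^ n) a))), ‖B‖, by
    simp, fun n => ?_, fun n => ?_⟩
  · ext y
    change (B (sg p ((σ ^ (n + 1)) a) (V ((σ ^ n) a) y))) ((σ ^ (n + 1)) b) =
      V ((σ ^ n) b) ((B (sg p ((σ ^ n) a) y)) ((σ ^ n) b))
    rw [zadd, zadd, ← hT, hBT, vperm_apply hp hT]
  · refine (ContinuousLinearMap.opNorm_comp_le _ _).trans ?_
    calc ‖(vv p ((σ ^ n) b) : LV p I Y →L[ℂ] Y)‖ * ‖B.comp (sg p ((σ ^ n) a))‖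
        ≤ 1 * (‖B‖ * 1) := by
          refine mul_le_mul (norm_vv_le _) ?_ (norm_nonneg _) zero_le_one
          exact (ContinuousLinearMap.opNorm_comp_le _ _).trans
            (mul_le_mul_of_nonneg_left (norm_sg_le _) (norm_nonneg _))
      _ = ‖B‖ := by ring

/-- there are enough bounded intertwining sequences -/
theorem adm_sep (hp : p ≠ ∞) {T : LV p I Y →L[ℂ] LV p I Y} (hT : VMono σ V T)
    (hn : ¬ HasHyper T) (a b : I) (y : Y) (φ : Y →L[ℂ] ℂ) (hy : y ≠ 0) (hφ : φ ≠ 0) :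
    ∃ C, Adm σ V a b C ∧ φ (C y) ≠ 0 := by
  by_contra hcon
  push Not at hcon
  apply hn
  refine hyp_of_pair T (sg p a y) (φ.comp (vv p b)) (sg_ne_zero _ hy) (vv_ne_zero _ hφ)
    fun B hB => ?_
  exact hcon _ (adm_of_comm hp hT a b B hB)

/-- the algebra of admissible operators at a point is everything -/
theorem adm_all (hp : p ≠ ∞) [FiniteDimensional ℂ Y] [Nontrivial Y]
    {T : LV p I Y →L[ℂ] LV p I Y} (hT : VMono σ V T)
    (hn : ¬ HasHyper T) (a : I) (C : Y →L[ℂ] Y) : Adm σ V a a C := by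
  let S : Subalgebra ℂ (Module.End ℂ Y) :=
    { carrier := {D | Adm σ V a a (LinearMap.toContinuousLinearMap D)}
      mul_mem' := fun {D D'} hD hD' => adm_mul hD' hD
      add_mem' := fun {D D'} hD hD' => by
        change Adm σ V a a (LinearMap.toContinuousLinearMap (D + D'))
        rw [map_add]
        exact adm_add hD hD'
      algebraMap_mem' := fun c => adm_smul c (adm_one a) }
  have hS : ∀ U : Submodule ℂ Y, (∀ s ∈ S, ∀ x ∈ U, s x ∈ U) → U = ⊥ ∨ U = ⊤ := by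
    intro U hU
    by_contra hcon
    push Not at hcon
    obtain ⟨hU0, hU1⟩ := hcon
    obtain ⟨y, hyU, hy⟩ := (Submodule.ne_bot_iff U).1 hU0
    obtain ⟨f, hf, hf'⟩ := Submodule.exists_le_ker_of_lt_top _ (lt_top_iff_ne_top.2 hU1)
    have hf0 : LinearMap.toContinuousLinearMap f ≠ 0 := by
      intro h
      apply hf
      ext z
      exact congrArg (fun S : Y →L[ℂ] ℂ => S z) h
    obtain ⟨D, hD, hD'⟩ := adm_sep hp hT hn a a y _ hy hf0
    apply hD'
    exact LinearMap.mem_ker.1 (hf' (hU (D : Y →ₗ[ℂ] Y) hD y hyU))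
  exact burnside S hS (C : Y →ₗ[ℂ] Y)

/-- all rank one operators are admissible between any two points -/
theorem adm_rank_one (hp : p ≠ ∞) [FiniteDimensional ℂ Y] [Nontrivial Y]
    {T : LV p I Y →L[ℂ] LV p I Y} (hT : VMono σ V T)
    (hn : ¬ HasHyper T) (a b : I) (φ : Y →L[ℂ] ℂ) (y : Y) : Adm σ V a b (φ.smulRight y) := by
  obtain ⟨u, hu⟩ := exists_ne (0 : Y)
  obtain ⟨ψ, hψ⟩ := exists_dual u hu
  have hψ0 : ψ ≠ 0 := by
    intro h
    rw [h] at hψ
    simp at hψ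
  obtain ⟨C, hC, hC'⟩ := adm_sep hp hT hn a b u ψ hu hψ0
  have h1 := adm_mul (adm_mul (adm_all hp hT hn a (φ.smulRight u)) hC)
    (adm_all hp hT hn b (((ψ (C u))⁻¹ • ψ).smulRight y))
  have h2 : (((ψ (C u))⁻¹ • ψ).smulRight y).comp (C.comp (φ.smulRight u)) = φ.smulRight y := by
    ext z
    change ((ψ (C u))⁻¹ * ψ (C (φ z • u))) • y = φ z • y
    rw [map_smul, map_smul, smul_eq_mul]
    congr 1
    field_simp
  rw [h2] at h1
  exact h1

/-- operators without hyperinvariant subspaces have tame weights -/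
theorem tame_of (hp : p ≠ ∞) [FiniteDimensional ℂ Y] [Nontrivial Y]
    {T : LV p I Y →L[ℂ] LV p I Y} (hV : ∀ i, Function.Bijective (V i)) (hT : VMono σ V T)
    (hn : ¬ HasHyper T) : Tame σ V := by
  intro b a x φ hx hφ
  obtain ⟨E, K, h1, h2, h3⟩ := adm_rank_one hp hT hn a b (φ 0) (x 0)
  have h4 : ∀ n, E n = (φ n).smulRight (x n) := by
    refine zind h1 fun n => ?_
    constructor
    · intro h
      ext z
      obtain ⟨y, rfl⟩ := (hV ((σ ^ n) a)).2 z
      have e1 := congrArg (fun S : Y →L[ℂ] Y => S y) (h2 n)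
      have e2 := congrArg (fun S : Y →L[ℂ] ℂ => S y) (hφ n)
      change E (n + 1) (V ((σ ^ n) a) y) = V ((σ ^ n) b) (E n y) at e1
      change φ (n + 1) (V ((σ ^ n) a) y) = φ n y at e2
      change E (n + 1) (V ((σ ^ n) a) y) = φ (n + 1) (V ((σ ^ n) a) y) • x (n + 1)
      rw [e1, e2, h, hx]
      exact map_smul _ _ _
    · intro h
      ext y
      apply (hV ((σ ^ n) b)).1
      have e1 := congrArg (fun S : Y →L[ℂ] Y => S y) (h2 n)
      have e2 := congrArg (fun S : Y →L[ℂ] ℂ => S y) (hφ n)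
      change E (n + 1) (V ((σ ^ n) a) y) = V ((σ ^ n) b) (E n y) at e1
      change φ (n + 1) (V ((σ ^ n) a) y) = φ n y at e2
      rw [← e1, h]
      change φ (n + 1) (V ((σ ^ n) a) y) • x (n + 1) = V ((σ ^ n) b) (φ n y • x n)
      rw [map_smul, ← hx, e2]
  refine ⟨K, fun n => ?_⟩
  have h5 := h3 n
  rw [h4, ContinuousLinearMap.norm_smulRight_apply] at h5
  rw [mul_comm]
  exact h5

end Pool.Agent.U38.HP
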