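import Pool.Agent.U38.HP.VLp

/-!
# Matrix weights: the classification
-/

set_option autoImplicit false
set_option linter.unusedSectionVars false

open Filter Topology
open scoped ENNReal

namespace Pool.Agent.U38.HP

variable {p : ℝ≥0∞} [Fact (1 ≤ p)]
variable {I Y : Type} [NormedAddCommGroup Y] [NormedSpace ℂ Y]

/-- `T (e_i ⊗ y) = e_(τ i) ⊗ V_i y` -/
def VMono (τ : I → I) (V : I → (Y →L[ℂ] Y)) (T : LV p I Y →L[ℂ] LV p I Y) : Prop :=
  ∀ (i : I) (y : Y), T (sg p i y) = sg p (τ i) (V i y)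

/-- `(T f)(i) = V_i f(τ i)` -/
def VComp (τ : I → I) (V : I → (Y →L[ℂ] Y)) (T : LV p I Y →L[ℂ] LV p I Y) : Prop :=
  ∀ (f : LV p I Y) (i : I), T f i = V i (f (τ i))

/-- `x` is a two-sided orbit of the weights over the orbit of `a` -/
def OrbOver (σ : Equiv.Perm I) (V : I → (Y →L[ℂ] Y)) (a : I) (x : ℤ → Y) : Prop :=
  ∀ n : ℤ, x (n + 1) = V ((σ ^ n) a) (x n)

/-- `φ` is a two-sided orbit of functionals of the weights over the orbit of `a` -/
def DualOver (σ : Equiv.Perm I) (V : I → (Y →L[ℂ] Y)) (a : I) (φ : ℤ → (Y →L[ℂ] ℂ)) : Prop :=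
  ∀ n : ℤ, (φ (n + 1)).comp (V ((σ ^ n) a)) = φ n

/-- all products `‖x_n‖ ‖φ_n‖` are bounded -/
def Tame (σ : Equiv.Perm I) (V : I → (Y →L[ℂ] Y)) : Prop :=
  ∀ (a b : I) (x : ℤ → Y) (φ : ℤ → (Y →L[ℂ] ℂ)), OrbOver σ V a x → DualOver σ V b φ →
    ∃ K : ℝ, ∀ n : ℤ, ‖x n‖ * ‖φ n‖ ≤ K

theorem exists_dual [Nontrivial Y] (y : Y) (hy : y ≠ 0) : ∃ φ : Y →L[ℂ] ℂ, φ y = 1 := by
  obtain ⟨g, -, hg⟩ := exists_dual_vector ℂ y (norm_ne_zero_iff.2 hy)
  have hy' : (‖y‖ : ℂ) ≠ 0 := by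
    rw [Ne, Complex.ofReal_eq_zero]
    exact norm_ne_zero_iff.2 hy
  refine ⟨(‖y‖ : ℂ)⁻¹ • g, ?_⟩
  change (‖y‖ : ℂ)⁻¹ * g y = 1
  rw [hg]
  exact inv_mul_cancel₀ hy'

theorem dual_bij [FiniteDimensional ℂ Y] (A : Y →L[ℂ] Y) (hA : Function.Bijective A) :
    Function.Bijective fun φ : Y →L[ℂ] ℂ => φ.comp A := by
  constructor
  · intro φ ψ h
    ext y
    obtain ⟨x, rfl⟩ := hA.2 y
    exact congrArg (fun S : Y →L[ℂ] ℂ => S x) h
  · intro ψ
    let e : Y ≃ₗ[ℂ] Y := LinearEquiv.ofBijective (A : Y →ₗ[ℂ] Y) hA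
    refine ⟨LinearMap.toContinuousLinearMap ((ψ : Y →ₗ[ℂ] ℂ) ∘ₗ (e.symm : Y →ₗ[ℂ] Y)), ?_⟩
    ext y
    change ψ (e.symm (A y)) = ψ y
    have : A y = e y := rfl
    rw [this, e.symm_apply_apply]

theorem bij_of_inj [FiniteDimensional ℂ Y] (A : Y →L[ℂ] Y) (h : ∀ y, A y = 0 → y = 0) :
    Function.Bijective A := by
  have h1 : Function.Injective (A : Y →ₗ[ℂ] Y) := (injective_iff_map_eq_zero _).2 h
  exact ⟨h1, LinearMap.injective_iff_surjective.1 h1⟩

theorem bij_of_dual [FiniteDimensional ℂ Y] (A : Y →L[ℂ] Y)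
    (h : ∀ φ : Y →L[ℂ] ℂ, φ.comp A = 0 → φ = 0) : Function.Bijective A := by
  have h1 : Function.Surjective (A : Y →ₗ[ℂ] Y) := by
    rw [← LinearMap.range_eq_top]
    by_contra hcon
    obtain ⟨f, hf, hf'⟩ := Submodule.exists_le_ker_of_lt_top _ (lt_top_iff_ne_top.2 hcon)
    have := h (LinearMap.toContinuousLinearMap f) (by
      ext y
      change f (A y) = 0
      exact LinearMap.mem_ker.1 (hf' (LinearMap.mem_range_self (A : Y →ₗ[ℂ] Y) y)))
    apply hf
    ext y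
    exact congrArg (fun S : Y →L[ℂ] ℂ => S y) this
  exact ⟨LinearMap.injective_iff_surjective.2 h1, h1⟩

/-- the permutation form -/
theorem perm_form (hp : p ≠ ∞) [FiniteDimensional ℂ Y] [Nontrivial Y] (τ : I → I)
    (V : I → (Y →L[ℂ] Y)) (T : LV p I Y →L[ℂ] LV p I Y) (hT : VMono τ V T ∨ VComp τ V T)
    (hs : ∀ c : ℂ, T ≠ c • (1 : LV p I Y →L[ℂ] LV p I Y)) (hn : ¬ HasHyper T) :
    ∃ (σ : Equiv.Perm I) (V' : I → (Y →L[ℂ] Y)), (∀ i, Function.Bijective (V' i)) ∧
      VMono σ V' T ∧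
      ((∀ i, σ i = τ i ∧ V' i = V i) ∨ (∀ i, τ (σ i) = i ∧ V' i = V (σ i))) := by
  have hker : ∀ f : LV p I Y, T f = 0 → f = 0 := by
    intro f hf
    by_contra h0
    exact hn (hyp_of_eig T 0 f h0 (by rw [hf, zero_smul]) (hs 0))
  have hran : ∀ φ : LV p I Y →L[ℂ] ℂ, φ.comp T = 0 → φ = 0 := by
    intro φ hφ
    by_contra h0
    exact hn (hyp_of_coeig T 0 φ h0 (by rw [hφ]; ext f; simp) (hs 0))
  obtain ⟨y₀, hy₀⟩ := exists_ne (0 : Y)
  obtain ⟨η, hη⟩ := exists_dual y₀ hy₀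
  have hη0 : η ≠ 0 := by
    intro h
    rw [h] at hη
    simp at hη
  rcases hT with hT | hT
  · have hw : ∀ i, Function.Bijective (V i) := by
      intro i
      refine bij_of_inj _ fun y hy => ?_
      by_contra hy0
      exact sg_ne_zero (p := p) i hy0 (hker _ (by rw [hT, hy, map_zero]))
    have hinj : Function.Injective τ := by
      intro i j hij
      by_contra hne
      obtain ⟨y', hy'⟩ := (hw j).2 (V i y₀)
      have h1 : T (sg p i y₀ - sg p j y') = 0 := by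
        rw [map_sub, hT, hT, hij, hy', sub_self]
      have h2 := hker _ h1
      have h3 := congrArg (fun f : LV p I Y => f i) h2
      change (sg p i y₀ : LV p I Y) i - (sg p j y' : LV p I Y) i = 0 at h3
      rw [sg_self, sg_ne hne, sub_zero] at h3
      exact hy₀ h3
    have hsur : Function.Surjective τ := by
      intro j
      by_contra hcon
      push Not at hcon
      apply vv_ne_zero (p := p) j hη0
      apply hran
      apply ext_sg hp
      intro i y
      change η ((T (sg p i y)) j) = 0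
      rw [hT, sg_ne (fun h => hcon i h.symm), map_zero]
    exact ⟨Equiv.ofBijective τ ⟨hinj, hsur⟩, V, hw, hT, Or.inl fun i => ⟨rfl, rfl⟩⟩
  · have hw : ∀ i, Function.Bijective (V i) := by
      intro i
      refine bij_of_dual _ fun φ hφ => ?_
      by_contra h0
      apply vv_ne_zero (p := p) i h0
      apply hran
      ext f
      change φ ((T f) i) = 0
      rw [hT]
      exact congrArg (fun S : Y →L[ℂ] ℂ => S (f (τ i))) hφ
    have hinj : Function.Injective τ := by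
      intro i j hij
      by_contra hne
      obtain ⟨η', hη'⟩ := (dual_bij (V j) (hw j)).2 (η.comp (V i))
      have h1 : η.comp (vv p i : LV p I Y →L[ℂ] Y) - η'.comp (vv p j) = 0 := by
        apply hran
        ext f
        change η ((T f) i) - η' ((T f) j) = 0
        rw [hT, hT, hij]
        have := congrArg (fun S : Y →L[ℂ] ℂ => S (f (τ j))) hη'
        change η' (V j (f (τ j))) = η (V i (f (τ j))) at this
        rw [this, sub_self]
      have h3 := congrArg (fun S : LV p I Y →L[ℂ] ℂ => S (sg p i y₀)) h1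
      change η ((sg p i y₀ : LV p I Y) i) - η' ((sg p i y₀ : LV p I Y) j) = 0 at h3
      rw [sg_self, sg_ne (fun h => hne h.symm), map_zero, sub_zero, hη] at h3
      exact one_ne_zero h3
    have hsur : Function.Surjective τ := by
      intro j
      by_contra hcon
      push Not at hcon
      apply sg_ne_zero (p := p) j hy₀
      apply hker
      ext i
      rw [hT, sg_ne (hcon i), map_zero]
      rfl
    set σ : Equiv.Perm I := Equiv.ofBijective τ ⟨hinj, hsur⟩ with hσ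
    have hσi : ∀ i, σ (σ⁻¹ i) = i := fun i => by
      rw [← Equiv.Perm.mul_apply, mul_inv_cancel]
      rfl
    have hτi : ∀ i, τ (σ⁻¹ i) = i := hσi
    refine ⟨σ⁻¹, fun i => V (σ⁻¹ i), fun i => hw _, fun i y => ?_, Or.inr fun i => ⟨hτi i, rfl⟩⟩
    ext k
    rw [hT]
    by_cases hk : k = σ⁻¹ i
    · subst hk
      rw [hτi, sg_self, sg_self]
    · rw [sg_ne hk, sg_ne, map_zero]
      intro h
      apply hk
      rw [← h]
      have : σ⁻¹ (σ k) = k := by
        rw [← Equiv.Perm.mul_apply, inv_mul_cancel]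
        rfl
      exact this.symm

theorem vperm_apply (hp : p ≠ ∞) {σ : Equiv.Perm I} {V : I → (Y →L[ℂ] Y)}
    {T : LV p I Y →L[ℂ] LV p I Y} (hT : VMono σ V T) (f : LV p I Y) (i : I) :
    (T f) (σ i) = V i (f i) := by
  have h : (vv p (σ i)).comp T = (V i).comp (vv p i) := by
    apply ext_sg hp
    intro j y
    change (T (sg p j y)) (σ i) = V i ((sg p j y : LV p I Y) i)
    rw [hT j]
    by_cases hij : i = j
    · subst hij
      rw [sg_self, sg_self]
    · rw [sg_ne (fun h => hij (σ.injective h)), sg_ne hij, map_zero]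
  exact congrArg (fun S : LV p I Y →L[ℂ] Y => S f) h

/-- all orbits are infinite -/
theorem vinf [FiniteDimensional ℂ Y] [Nontrivial Y] {σ : Equiv.Perm I} {V : I → (Y →L[ℂ] Y)}
    {T : LV p I Y →L[ℂ] LV p I Y} (hT : VMono σ V T)
    (hs : ∀ c : ℂ, T ≠ c • (1 : LV p I Y →L[ℂ] LV p I Y)) (hn : ¬ HasHyper T) :
    InfiniteOrbits σ := by
  have hnat : ∀ (x : I) (n : ℕ), 1 ≤ n → (σ ^ n) x ≠ x := by
    intro x n hn1 hx
    apply hn
    let U : Submodule ℂ (LV p I Y) :=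
      ⨆ k : Fin n, LinearMap.range ((sg p ((σ ^ (k : ℕ)) x) : Y →L[ℂ] LV p I Y) : Y →ₗ[ℂ] LV p I Y)
    have hfin : FiniteDimensional ℂ U := by
      change FiniteDimensional ℂ (⨆ k : Fin n, LinearMap.range
        ((sg p ((σ ^ (k : ℕ)) x) : Y →L[ℂ] LV p I Y) : Y →ₗ[ℂ] LV p I Y) : Submodule ℂ (LV p I Y))
      infer_instance
    have hmem : ∀ (k : ℕ) (y : Y), k < n → sg p ((σ ^ k) x) y ∈ U := fun k y hk =>
      (le_iSup (fun k : Fin n => LinearMap.range
        ((sg p ((σ ^ (k : ℕ)) x) : Y →L[ℂ] LV p I Y) : Y →ₗ[ℂ] LV p I Y)) ⟨k, hk⟩) ⟨y, rfl⟩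
    refine hyp_of_fin T hs U ?_ ?_
    · intro h0
      obtain ⟨y₀, hy₀⟩ := exists_ne (0 : Y)
      have h1 := hmem 0 y₀ (by omega)
      rw [h0] at h1
      exact sg_ne_zero _ hy₀ ((Submodule.mem_bot ℂ).1 h1)
    · have h1 : U ≤ U.comap (T : LV p I Y →ₗ[ℂ] LV p I Y) := by
        refine iSup_le fun k => ?_
        rintro _ ⟨y, rfl⟩
        change T (sg p ((σ ^ (k : ℕ)) x) y) ∈ U
        rw [hT]
        have h2 : σ ((σ ^ (k : ℕ)) x) = (σ ^ ((k : ℕ) + 1)) x := by
          rw [pow_succ']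
          rfl
        rw [h2]
        by_cases hk : (k : ℕ) + 1 < n
        · exact hmem _ _ hk
        · have hk' : (k : ℕ) + 1 = n := by have := k.2; omega
          rw [hk', hx]
          exact hmem 0 _ (by omega)
      exact fun y hy => h1 hy
  intro x n hn0 hx
  rcases Int.eq_nat_or_neg n with ⟨k, rfl | rfl⟩
  · exact hnat x k (by omega) (by simpa using hx)
  · apply hnat x k (by omega)
    have h1 : (σ ^ (k : ℤ)) ((σ ^ (-(k : ℤ))) x) = x := by
      rw [← Equiv.Perm.mul_apply, ← zpow_add]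
      simp
    rw [hx] at h1
    simpa using h1

end Pool.Agent.U38.HP
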