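import Pool.Agent.U38.HP.VBurn
import Pool.Agent.U38.HP.Fin

/-!
# Matrix weights: tame operators behave as a scalar bilateral shift
-/

set_option autoImplicit false
set_option linter.unusedSectionVars false

open Filter Topology
open scoped ENNReal

namespace Pool.Agent.U38.HP

variable {p : ℝ≥0∞} [Fact (1 ≤ p)]
variable {I Y : Type} [NormedAddCommGroup Y] [NormedSpace ℂ Y]
variable {σ : Equiv.Perm I} {V : I → (Y →L[ℂ] Y)}

theorem exists_orb (hV : ∀ i, Function.Bijective (V i)) (b : I) (y : Y) :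
    ∃ x : ℤ → Y, x 0 = y ∧ OrbOver σ V b x := by
  obtain ⟨x, h1, h2⟩ := zseq (fun n : ℤ => Equiv.ofBijective (V ((σ ^ n) b)) (hV _)) y
  exact ⟨x, h1, fun n => h2 n⟩

theorem exists_dorb [FiniteDimensional ℂ Y] (hV : ∀ i, Function.Bijective (V i)) (b : I)
    (ψ : Y →L[ℂ] ℂ) : ∃ φ : ℤ → (Y →L[ℂ] ℂ), φ 0 = ψ ∧ DualOver σ V b φ := by
  obtain ⟨φ, h1, h2⟩ := zseq (fun n : ℤ => (Equiv.ofBijective
    (fun φ : Y →L[ℂ] ℂ => φ.comp (V ((σ ^ n) b))) (dual_bij _ (hV _))).symm) ψ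
  refine ⟨φ, h1, fun n => ?_⟩
  rw [h2 n]
  exact Equiv.apply_symm_apply (Equiv.ofBijective
    (fun φ : Y →L[ℂ] ℂ => φ.comp (V ((σ ^ n) b))) (dual_bij _ (hV _))) (φ n)

theorem pairing {b : I} {x : ℤ → Y} {φ : ℤ → (Y →L[ℂ] ℂ)} (hx : OrbOver σ V b x)
    (hφ : DualOver σ V b φ) (n : ℤ) : φ n (x n) = φ 0 (x 0) := by
  revert n
  refine zind rfl fun n => ?_
  have e2 := congrArg (fun S : Y →L[ℂ] ℂ => S (x n)) (hφ n)
  change φ (n + 1) (V ((σ ^ n) b) (x n)) = φ n (x n) at e2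
  rw [hx n, e2]

theorem orb_ne {b : I} {x : ℤ → Y} (hV : ∀ i, Function.Bijective (V i)) (hx : OrbOver σ V b x)
    (hx0 : x 0 ≠ 0) (n : ℤ) : x n ≠ 0 := by
  revert n
  refine zind hx0 fun n => ?_
  rw [hx n]
  constructor
  · intro h h0
    apply h
    apply (hV _).1
    rw [h0, map_zero]
  · intro h h0
    apply h
    rw [h0, map_zero]

/-- comparison of orbits -/
theorem tame_cmp [FiniteDimensional ℂ Y] [Nontrivial Y] (hV : ∀ i, Function.Bijective (V i))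
    (ht : Tame σ V) {a b : I} {x y : ℤ → Y} (hx : OrbOver σ V a x) (hx0 : x 0 ≠ 0)
    (hy : OrbOver σ V b y) : ∃ K : ℝ, ∀ n, ‖y n‖ ≤ K * ‖x n‖ := by
  obtain ⟨ψ, hψ⟩ := exists_dual (x 0) hx0
  obtain ⟨η, h1, h2⟩ := exists_dorb (σ := σ) hV a ψ
  obtain ⟨K, hK⟩ := ht b a y η hy h2
  refine ⟨K, fun n => ?_⟩
  have h3 : η n (x n) = 1 := by rw [pairing hx h2, h1, hψ]
  have h4 : 1 ≤ ‖η n‖ * ‖x n‖ := by
    have := (η n).le_opNorm (x n)
    rw [h3, norm_one] at this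
    exact this
  calc ‖y n‖ = ‖y n‖ * 1 := by ring
    _ ≤ ‖y n‖ * (‖η n‖ * ‖x n‖) := mul_le_mul_of_nonneg_left h4 (norm_nonneg _)
    _ = (‖y n‖ * ‖η n‖) * ‖x n‖ := by ring
    _ ≤ K * ‖x n‖ := mul_le_mul_of_nonneg_right (hK n) (norm_nonneg _)

section emb

variable (hp : p ≠ ∞) (ho : InfiniteOrbits σ) (b : I)

open Classical in
/-- the operator `g ↦ ∑ g n e_(σ^n b) ⊗ u n` -/
noncomputable def emb (u : ℤ → Y) (K : ℝ) (hK : ∀ n, ‖u n‖ ≤ K) : L p ℤ →L[ℂ] LV p I Y :=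
  vreix (Y := ℂ) (B := ℤ) hp (fun i : I => if h : ∃ n : ℤ, (σ ^ n) b = i then h.choose else 0)
    (fun i => if h : ∃ n : ℤ, (σ ^ n) b = i then (1 : ℂ →L[ℂ] ℂ).smulRight (u h.choose) else 0) |K|
    (fun i => by
      split_ifs with h
      · rw [ContinuousLinearMap.norm_smulRight_apply, norm_one, one_mul]
        exact (hK _).trans (le_abs_self K)
      · rw [norm_zero]; exact abs_nonneg K)
    (fun i j hi hj h => by
      have hi' : ∃ n : ℤ, (σ ^ n) b = i := by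
        by_contra hcon
        simp [hcon] at hi
      have hj' : ∃ n : ℤ, (σ ^ n) b = j := by
        by_contra hcon
        simp [hcon] at hj
      simp only [hi', hj', dite_true] at h
      rw [← hi'.choose_spec, ← hj'.choose_spec, h])

include ho in
theorem emb_apply (u : ℤ → Y) (K : ℝ) (hK : ∀ n, ‖u n‖ ≤ K) (g : L p ℤ) (n : ℤ) :
    (emb hp b (σ := σ) u K hK g) ((σ ^ n) b) = g n • u n := by
  classical
  have h : ∃ m : ℤ, (σ ^ m) b = (σ ^ n) b := ⟨n, rfl⟩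
  have h2 : h.choose = n := orbit_inj ho b h.choose_spec
  unfold emb
  rw [vreix_apply, dif_pos h, dif_pos h, h2]
  rfl

theorem emb_off (u : ℤ → Y) (K : ℝ) (hK : ∀ n, ‖u n‖ ≤ K) (g : L p ℤ) (i : I)
    (hi : ¬ ∃ n : ℤ, (σ ^ n) b = i) : (emb hp b (σ := σ) u K hK g) i = 0 := by
  classical
  unfold emb
  rw [vreix_apply, dif_neg hi]
  rfl

include ho in
theorem emb_e (u : ℤ → Y) (K : ℝ) (hK : ∀ n, ‖u n‖ ≤ K) (n : ℤ) :
    emb hp b (σ := σ) u K hK (e p n) = sg p ((σ ^ n) b) (u n) := by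
  ext i
  by_cases hi : ∃ m : ℤ, (σ ^ m) b = i
  · obtain ⟨m, rfl⟩ := hi
    rw [emb_apply hp ho]
    by_cases hm : m = n
    · subst hm
      rw [e_self, one_smul, sg_self]
    · rw [e_ne hm, zero_smul, sg_ne]
      intro h
      exact hm (orbit_inj ho b h)
  · rw [emb_off hp b u K hK _ i hi, sg_ne]
    intro h
    exact hi ⟨n, h.symm⟩

/-- the operator `f ↦ (η n (f (σ^n b)))_n` -/
noncomputable def prj (ho : InfiniteOrbits σ) (η : ℤ → (Y →L[ℂ] ℂ)) (K : ℝ)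
    (hK : ∀ n, ‖η n‖ ≤ K) : LV p I Y →L[ℂ] L p ℤ :=
  vreix (Z := ℂ) (A := ℤ) hp (fun n : ℤ => (σ ^ n) b) η K hK (fun _ _ _ _ h => orbit_inj ho b h)

theorem prj_apply (η : ℤ → (Y →L[ℂ] ℂ)) (K : ℝ) (hK : ∀ n, ‖η n‖ ≤ K) (f : LV p I Y) (n : ℤ) :
    (prj hp b ho η K hK f) n = η n (f ((σ ^ n) b)) := rfl

end emb

/-- the weights of the scalar shift of an orbit -/
noncomputable def wt (x : ℤ → Y) (n : ℤ) : ℂ := ((‖x (n + 1)‖ / ‖x n‖ : ℝ) : ℂ)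

section main

variable (hp : p ≠ ∞) [FiniteDimensional ℂ Y] [Nontrivial Y] {T : LV p I Y →L[ℂ] LV p I Y}
  (hV : ∀ i, Function.Bijective (V i)) (hT : VMono σ V T) (ho : InfiniteOrbits σ)
  (ht : Tame σ V) {a : I} {x : ℤ → Y} (hx : OrbOver σ V a x) (hx0 : x 0 ≠ 0)
include hp hV hT ho ht hx hx0

theorem iota_exists {b : I} {y : ℤ → Y} (hy : OrbOver σ V b y) :
    ∃ ι : L p ℤ →L[ℂ] LV p I Y,
      (∀ n, ι (e p n) = sg p ((σ ^ n) b) (((‖x n‖⁻¹ : ℝ) : ℂ) • y n)) ∧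
      (∀ g n, (ι g) ((σ ^ n) b) = g n • (((‖x n‖⁻¹ : ℝ) : ℂ) • y n)) ∧
      ∀ W : L p ℤ →L[ℂ] L p ℤ, IsShift (wt x) W → T.comp ι = ι.comp W := by
  have hxn := orb_ne hV hx hx0
  obtain ⟨K, hK⟩ := tame_cmp hV ht hx hx0 hy
  have hb : ∀ n, ‖((‖x n‖⁻¹ : ℝ) : ℂ) • y n‖ ≤ K := by
    intro n
    have h1 : 0 < ‖x n‖ := norm_pos_iff.2 (hxn n)
    rw [norm_smul, Complex.norm_real, Real.norm_of_nonneg (by positivity), inv_mul_eq_div,
      div_le_iff₀ h1]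
    exact hK n
  refine ⟨emb hp b (σ := σ) _ K hb, fun n => emb_e hp ho b _ K hb n,
    fun g n => emb_apply hp ho b _ K hb g n, fun W hW => ?_⟩
  apply ext_e hp
  intro n
  change T (emb hp b (σ := σ) _ K hb (e p n)) = emb hp b (σ := σ) _ K hb (W (e p n))
  rw [hW n, map_smul, emb_e hp ho, emb_e hp ho, hT, map_smul, ← hy n, zadd, ← map_smul, smul_smul]
  congr 2
  unfold wt
  rw [← Complex.ofReal_mul]
  congr 1
  have h1 : ‖x n‖ ≠ 0 := norm_ne_zero_iff.2 (hxn n)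
  have h2 : ‖x (n + 1)‖ ≠ 0 := norm_ne_zero_iff.2 (hxn (n + 1))
  field_simp

theorem pi_exists {b : I} {φ : ℤ → (Y →L[ℂ] ℂ)} (hφ : DualOver σ V b φ) :
    ∃ π : LV p I Y →L[ℂ] L p ℤ,
      (∀ f n, (π f) n = ((‖x n‖ : ℝ) : ℂ) * φ n (f ((σ ^ n) b))) ∧
      ∀ W : L p ℤ →L[ℂ] L p ℤ, IsShift (wt x) W → π.comp T = W.comp π := by
  have hxn := orb_ne hV hx hx0
  obtain ⟨K, hK⟩ := ht a b x φ hx hφ
  have hb : ∀ n, ‖((‖x n‖ : ℝ) : ℂ) • φ n‖ ≤ K := by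
    intro n
    rw [norm_smul, Complex.norm_real, norm_norm]
    exact hK n
  refine ⟨prj hp b ho (fun n => ((‖x n‖ : ℝ) : ℂ) • φ n) K hb, fun f n => rfl, fun W hW => ?_⟩
  ext f n
  obtain ⟨m, rfl⟩ : ∃ m, n = m + 1 := ⟨n - 1, by ring⟩
  have h3 := perm_apply hp (σ := shiftPerm) (v := wt x) hW
    (prj hp b ho (fun n => ((‖x n‖ : ℝ) : ℂ) • φ n) K hb f) m
  rw [shiftPerm_apply] at h3
  change ((‖x (m + 1)‖ : ℝ) : ℂ) * φ (m + 1) ((T f) ((σ ^ (m + 1)) b)) =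
    (W (prj hp b ho (fun n => ((‖x n‖ : ℝ) : ℂ) • φ n) K hb f)) (m + 1)
  rw [h3, zadd, vperm_apply hp hT]
  change ((‖x (m + 1)‖ : ℝ) : ℂ) * φ (m + 1) (V ((σ ^ m) b) (f ((σ ^ m) b))) =
    wt x m * (((‖x m‖ : ℝ) : ℂ) * φ m (f ((σ ^ m) b)))
  have e2 := congrArg (fun S : Y →L[ℂ] ℂ => S (f ((σ ^ m) b))) (hφ m)
  change φ (m + 1) (V ((σ ^ m) b) (f ((σ ^ m) b))) = φ m (f ((σ ^ m) b)) at e2
  rw [e2, ← mul_assoc]
  congr 1
  unfold wt
  rw [← Complex.ofReal_mul]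
  congr 1
  have h1 : ‖x m‖ ≠ 0 := norm_ne_zero_iff.2 (hxn m)
  field_simp

theorem section_exists :
    ∃ (ι : L p ℤ →L[ℂ] LV p I Y) (π : LV p I Y →L[ℂ] L p ℤ),
      (∀ g, π (ι g) = g) ∧ (∀ W : L p ℤ →L[ℂ] L p ℤ, IsShift (wt x) W → T.comp ι = ι.comp W) ∧
      (∀ W : L p ℤ →L[ℂ] L p ℤ, IsShift (wt x) W → π.comp T = W.comp π) ∧
      IsShift (wt x) (π.comp (T.comp ι)) := by
  have hxn := orb_ne hV hx hx0
  obtain ⟨ι, hι1, hι2, hι3⟩ := iota_exists hp hV hT ho ht hx hx0 hx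
  obtain ⟨ψ, hψ⟩ := exists_dual (x 0) hx0
  obtain ⟨η, h1, h2⟩ := exists_dorb (σ := σ) hV a ψ
  obtain ⟨π, hπ1, hπ2⟩ := pi_exists hp hV hT ho ht hx hx0 h2
  have h3 : ∀ n, η n (x n) = 1 := fun n => by rw [pairing hx h2, h1, hψ]
  refine ⟨ι, π, fun g => ?_, hι3, hπ2, ?_⟩
  · ext n
    rw [hπ1, hι2, map_smul, map_smul, h3, smul_eq_mul, smul_eq_mul, mul_one]
    have h4 : ‖x n‖ ≠ 0 := norm_ne_zero_iff.2 (hxn n)
    have h5 : ((‖x n‖ : ℝ) : ℂ) ≠ 0 := by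
      rw [Ne, Complex.ofReal_eq_zero]
      exact h4
    rw [Complex.ofReal_inv]
    field_simp
  · intro n
    ext m
    change (π (T (ι (e p n)))) m = _
    rw [hι1, hT, hπ1, ← zadd, lp.coeFn_smul, Pi.smul_apply, smul_eq_mul, map_smul, ← hx n]
    by_cases hm : m = n + 1
    · subst hm
      rw [sg_self, e_self, mul_one, map_smul, h3, smul_eq_mul, mul_one, ← Complex.ofReal_mul]
      unfold wt
      rw [div_eq_mul_inv]
    · rw [e_ne hm, mul_zero, sg_ne, map_zero, mul_zero]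
      intro h
      exact hm (orbit_inj ho a h)

/-- the lower bound of the weights -/
theorem wt_lower : ∃ δ : ℝ, 0 < δ ∧ ∀ n, δ ≤ ‖wt x n‖ := by
  have hxn := orb_ne hV hx hx0
  have hx' : OrbOver σ V (σ a) (fun n => x (n + 1)) := by
    intro n
    change x (n + 1 + 1) = V ((σ ^ n) (σ a)) (x (n + 1))
    rw [hx (n + 1)]
    congr 2
    rw [zpow_add, zpow_one]
    rfl
  obtain ⟨K, hK⟩ := tame_cmp hV ht hx' (hxn _) hx
  refine ⟨1 / (|K| + 1), by positivity, fun n => ?_⟩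
  have h1 : 0 < ‖x n‖ := norm_pos_iff.2 (hxn n)
  have h2 := hK n
  unfold wt
  rw [Complex.norm_real, Real.norm_of_nonneg (by positivity), div_le_div_iff₀ (by positivity) h1,
    one_mul]
  refine h2.trans ?_
  rw [mul_comm]
  exact mul_le_mul_of_nonneg_left (by linarith [le_abs_self K]) (norm_nonneg _)

/-- the equivalence -/
theorem tame_iff (W : L p ℤ →L[ℂ] L p ℤ) (hW : IsShift (wt x) W) : HasHyper T ↔ HasHyper W := by
  have hxn := orb_ne hV hx hx0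
  obtain ⟨ι₀, π₀, h0, h1, h2, -⟩ := section_exists hp hV hT ho ht hx hx0
  constructor
  · refine transfer T W ?_ ?_
    · intro f hf
      obtain ⟨b, hb⟩ : ∃ b, f b ≠ 0 := by
        by_contra hcon
        push Not at hcon
        exact hf (lp.ext (funext hcon))
      obtain ⟨ψ, hψ⟩ := exists_dual (f b) hb
      obtain ⟨φ, h3, h4⟩ := exists_dorb (σ := σ) hV b ψ
      obtain ⟨π, hπ1, hπ2⟩ := pi_exists hp hV hT ho ht hx hx0 h4
      refine ⟨π, hπ2 W hW, fun h => ?_⟩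
      have h5 := hπ1 f 0
      rw [h, h3] at h5
      change (0 : ℂ) = ((‖x 0‖ : ℝ) : ℂ) * ψ (f b) at h5
      rw [hψ, mul_one] at h5
      have h6 : ‖x 0‖ = 0 := by exact_mod_cast h5.symm
      exact hx0 (norm_eq_zero.1 h6)
    · intro M hM hι
      refine mem_of_sg hp M hM fun b y => ?_
      obtain ⟨z, h3, h4⟩ := exists_orb (σ := σ) hV b y
      obtain ⟨ι, hι1, -, hι3⟩ := iota_exists hp hV hT ho ht hx hx0 h4
      have h5 := hι ι (hι3 W hW) (((‖x 0‖ : ℝ) : ℂ) • e p 0)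
      rw [map_smul, hι1, ← map_smul, smul_smul, h3, Complex.ofReal_inv, mul_inv_cancel₀,
        one_smul] at h5
      · exact h5
      · rw [Ne, Complex.ofReal_eq_zero]
        exact norm_ne_zero_iff.2 hx0
  · refine transfer W T ?_ ?_
    · intro g hg
      refine ⟨ι₀, (h1 W hW).symm, fun h => hg ?_⟩
      rw [← h0 g, h, map_zero]
    · intro M hM hι
      rw [Submodule.eq_top_iff']
      intro g
      rw [← h0 g]
      exact hι π₀ (h2 W hW).symm _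

end main

end Pool.Agent.U38.HP
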