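import Pool.Agent.U38.HP.Cls
import Pool.Agent.U38.HP.Burn

/-!
# Vector-valued `ℓ^p` spaces
-/

set_option autoImplicit false
set_option linter.unusedSectionVars false

open Filter Topology
open scoped ENNReal

namespace Pool.Agent.U38.HP

/-- `ℓ^p(I, Y)` -/
abbrev LV (p : ℝ≥0∞) (I Y : Type) [NormedAddCommGroup Y] : Type := lp (fun _ : I => Y) p

variable {p : ℝ≥0∞} [Fact (1 ≤ p)]
variable {I Y : Type} [NormedAddCommGroup Y] [NormedSpace ℂ Y]

open Classical in
/-- `y ↦ e_i ⊗ y` -/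
noncomputable def sg (p : ℝ≥0∞) [Fact (1 ≤ p)] (i : I) : Y →L[ℂ] LV p I Y :=
  lp.singleContinuousLinearMap ℂ (fun _ : I => Y) p i

/-- the coordinates -/
noncomputable def vv (p : ℝ≥0∞) [Fact (1 ≤ p)] (i : I) : LV p I Y →L[ℂ] Y :=
  lp.evalCLM ℂ (fun _ : I => Y) p i

theorem vv_apply (i : I) (f : LV p I Y) : vv p i f = f i := rfl

theorem sg_self (i : I) (y : Y) : (sg p i y : LV p I Y) i = y := by
  classical
  unfold sg
  rw [lp.singleContinuousLinearMap_apply]
  exact lp.single_apply_self (E := fun _ : I => Y) p i y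

theorem sg_ne {i j : I} (h : j ≠ i) (y : Y) : (sg p i y : LV p I Y) j = 0 := by
  classical
  unfold sg
  rw [lp.singleContinuousLinearMap_apply]
  exact lp.single_apply_ne (E := fun _ : I => Y) p i y h

theorem norm_sg (i : I) (y : Y) : ‖(sg p i y : LV p I Y)‖ = ‖y‖ := by
  classical
  have hp0 : (0 : ℝ≥0∞) < p := zero_lt_one.trans_le Fact.out
  unfold sg
  rw [lp.singleContinuousLinearMap_apply, lp.norm_single (E := fun _ : I => Y) hp0]

theorem norm_sg_le (i : I) : ‖(sg p i : Y →L[ℂ] LV p I Y)‖ ≤ 1 := by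
  refine ContinuousLinearMap.opNorm_le_bound _ zero_le_one fun y => ?_
  rw [one_mul, norm_sg]

theorem norm_vv_le (i : I) : ‖(vv p i : LV p I Y →L[ℂ] Y)‖ ≤ 1 := by
  refine ContinuousLinearMap.opNorm_le_bound _ zero_le_one fun f => ?_
  rw [one_mul, vv_apply]
  exact lp.norm_apply_le_norm (zero_lt_one.trans_le (Fact.out : (1 : ℝ≥0∞) ≤ p)).ne' f i

theorem sg_ne_zero (i : I) {y : Y} (hy : y ≠ 0) : (sg p i y : LV p I Y) ≠ 0 := by
  intro h
  have := norm_sg (p := p) i y
  rw [h, norm_zero] at this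
  exact hy (norm_eq_zero.1 this.symm)

theorem vv_ne_zero (i : I) {φ : Y →L[ℂ] ℂ} (hφ : φ ≠ 0) :
    φ.comp (vv p i : LV p I Y →L[ℂ] Y) ≠ 0 := by
  intro h
  apply hφ
  ext y
  have h1 := congrArg (fun S : LV p I Y →L[ℂ] ℂ => S (sg p i y)) h
  change φ ((sg p i y : LV p I Y) i) = 0 at h1
  rw [sg_self] at h1
  exact h1

section dense

variable (hp : p ≠ ∞)
include hp

/-- two operators which agree on the vectors `e_i ⊗ y` are equal -/
theorem ext_sg {Z : Type} [NormedAddCommGroup Z] [NormedSpace ℂ Z]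
    {S T : LV p I Y →L[ℂ] Z} (h : ∀ i y, S (sg p i y) = T (sg p i y)) : S = T := by
  classical
  ext f
  have h1 := lp.hasSum_single hp f
  have h2 := h1.mapL S
  have h3 := h1.mapL T
  have h4 : (fun i => S (lp.single p i (f i))) = fun i => T (lp.single p i (f i)) := by
    funext i
    have := h i (f i)
    unfold sg at this
    rw [lp.singleContinuousLinearMap_apply] at this
    convert this
  rw [h4] at h2
  exact h2.unique h3

theorem mem_of_sg (M : Submodule ℂ (LV p I Y)) (hM : IsClosed (M : Set (LV p I Y)))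
    (h : ∀ i y, sg p i y ∈ M) : M = ⊤ := by
  classical
  rw [Submodule.eq_top_iff']
  intro f
  have h1 := lp.hasSum_single hp f
  refine hM.mem_of_tendsto h1 (Eventually.of_forall fun s => ?_)
  refine M.sum_mem fun i _ => ?_
  have := h i (f i)
  unfold sg at this
  rw [lp.singleContinuousLinearMap_apply] at this
  convert this

end dense

section vreix

variable {A B Z : Type} [NormedAddCommGroup Z] [NormedSpace ℂ Z]

theorem vreix_bound (hp : p ≠ ∞) (g : A → B) (c : A → (Y →L[ℂ] Z)) (C : ℝ) (hC : ∀ a, ‖c a‖ ≤ C)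
    (hinj : ∀ a a', c a ≠ 0 → c a' ≠ 0 → g a = g a' → a = a') (f : LV p B Y) (s : Finset A) :
    ∑ a ∈ s, ‖c a (f (g a))‖ ^ p.toReal ≤ (|C| * ‖f‖) ^ p.toReal := by
  classical
  have hp0 : 0 < p.toReal := ENNReal.toReal_pos (zero_lt_one.trans_le Fact.out).ne' hp
  have h1 : ∑ a ∈ s, ‖c a (f (g a))‖ ^ p.toReal =
      ∑ a ∈ s with c a ≠ 0, ‖c a (f (g a))‖ ^ p.toReal := by
    symm
    refine Finset.sum_filter_of_ne fun a _ ha => ?_
    intro h0
    apply ha
    rw [h0, zero_apply, norm_zero, Real.zero_rpow hp0.ne']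
  rw [h1]
  calc ∑ a ∈ s with c a ≠ 0, ‖c a (f (g a))‖ ^ p.toReal
      ≤ ∑ a ∈ s with c a ≠ 0, |C| ^ p.toReal * ‖f (g a)‖ ^ p.toReal := by
        refine Finset.sum_le_sum fun a _ => ?_
        rw [← Real.mul_rpow (abs_nonneg _) (norm_nonneg _)]
        refine Real.rpow_le_rpow (by positivity) ?_ hp0.le
        exact ((c a).le_opNorm _).trans
          (mul_le_mul_of_nonneg_right ((hC a).trans (le_abs_self C)) (norm_nonneg _))
    _ = |C| ^ p.toReal * ∑ a ∈ s with c a ≠ 0, ‖f (g a)‖ ^ p.toReal := by rw [Finset.mul_sum]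
    _ = |C| ^ p.toReal * ∑ b ∈ (s.filter fun a => c a ≠ 0).image g, ‖f b‖ ^ p.toReal := by
        rw [Finset.sum_image]
        intro a ha a' ha' h
        rw [Finset.coe_filter] at ha ha'
        exact hinj a a' ha.2 ha'.2 h
    _ ≤ |C| ^ p.toReal * ‖f‖ ^ p.toReal :=
        mul_le_mul_of_nonneg_left (lp.sum_rpow_le_norm_rpow hp0 f _) (by positivity)
    _ = (|C| * ‖f‖) ^ p.toReal := by rw [Real.mul_rpow (abs_nonneg _) (norm_nonneg _)]

/-- the operator `(R f)(a) = c a (f (g a))`; `g` is injective where `c` is not zero -/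
noncomputable def vreix (hp : p ≠ ∞) (g : A → B) (c : A → (Y →L[ℂ] Z)) (C : ℝ)
    (hC : ∀ a, ‖c a‖ ≤ C)
    (hinj : ∀ a a', c a ≠ 0 → c a' ≠ 0 → g a = g a' → a = a') : LV p B Y →L[ℂ] LV p A Z :=
  LinearMap.mkContinuous
    { toFun := fun f => ⟨fun a => c a (f (g a)),
        memℓp_gen' (vreix_bound hp g c C hC hinj f)⟩
      map_add' := fun f f' => by
        ext a
        change c a ((f + f') (g a)) = c a (f (g a)) + c a (f' (g a))
        rw [lp.coeFn_add, Pi.add_apply, map_add]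
      map_smul' := fun r f => by
        ext a
        change c a ((r • f) (g a)) = r • (c a (f (g a)))
        rw [lp.coeFn_smul, Pi.smul_apply, map_smul] }
    |C| (fun f => by
      have hp0 : 0 < p.toReal := ENNReal.toReal_pos (zero_lt_one.trans_le Fact.out).ne' hp
      exact lp.norm_le_of_forall_sum_le hp0 (by positivity) (vreix_bound hp g c C hC hinj f))

theorem vreix_apply (hp : p ≠ ∞) (g : A → B) (c : A → (Y →L[ℂ] Z)) (C : ℝ) (hC : ∀ a, ‖c a‖ ≤ C)
    (hinj : ∀ a a', c a ≠ 0 → c a' ≠ 0 → g a = g a' → a = a') (f : LV p B Y) (a : A) :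
    (vreix hp g c C hC hinj f) a = c a (f (g a)) := rfl

end vreix

end Pool.Agent.U38.HP
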