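import Pool.Agent.U38.HP.VFin

/-!
# Block-weighted bilateral shifts: similarity to copies of a scalar shift
-/

set_option autoImplicit false
set_option linter.unusedSectionVars false

open Filter Topology
open scoped ENNReal

namespace Pool.Agent.U38.HP

variable {p : ℝ≥0∞} [Fact (1 ≤ p)]
variable {Y : Type} [NormedAddCommGroup Y] [NormedSpace ℂ Y]

theorem shiftPerm_zpow (n : ℤ) : (shiftPerm ^ n) 0 = n := by
  revert n
  refine zind (by simp) fun n => ?_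
  rw [zadd, shiftPerm_apply]
  constructor
  · intro h
    rw [h]
  · intro h
    exact add_right_cancel h

theorem shift_io : InfiniteOrbits shiftPerm := by
  intro x n hn h
  have h1 : ∀ m : ℤ, (shiftPerm ^ m) x = x + m := by
    refine zind (by simp) fun m => ?_
    rw [zadd, shiftPerm_apply]
    constructor
    · intro h
      rw [h]
      ring
    · intro h
      have : x + (m + 1) = x + m + 1 := by ring
      rw [this] at h
      exact add_right_cancel h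
  rw [h1] at h
  omega

/-- a shift which is not zero is not a scalar -/
theorem shift_ns {V : ℤ → (Y →L[ℂ] Y)} {T : LV p ℤ Y →L[ℂ] LV p ℤ Y}
    (hT : VMono (fun n : ℤ => n + 1) V T) (hV : ∃ m, V m ≠ 0) (c : ℂ) :
    T ≠ c • (1 : LV p ℤ Y →L[ℂ] LV p ℤ Y) := by
  intro h
  obtain ⟨m, hm⟩ := hV
  apply hm
  ext y
  have h1 := hT m y
  rw [h] at h1
  have h2 := congrArg (fun f : LV p ℤ Y => f (m + 1)) h1
  change c • (sg p m y : LV p ℤ Y) (m + 1) = (sg p (m + 1) (V m y) : LV p ℤ Y) (m + 1) at h2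
  rw [sg_ne (by omega), sg_self, smul_zero] at h2
  rw [← h2]
  rfl

theorem shift_bij [FiniteDimensional ℂ Y] {V : ℤ → (Y →L[ℂ] Y)} {T : LV p ℤ Y →L[ℂ] LV p ℤ Y}
    (hT : VMono (fun n : ℤ => n + 1) V T) (hV : ∃ m, V m ≠ 0) (hn : ¬ HasHyper T) (i : ℤ) :
    Function.Bijective (V i) := by
  refine bij_of_inj _ fun y hy => ?_
  by_contra hy0
  apply hn
  refine hyp_of_eig T 0 (sg p i y) (sg_ne_zero _ hy0) ?_ (shift_ns hT hV 0)
  rw [hT, hy, map_zero, zero_smul]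

/-- a bounded family of operators acts on `ℓ^p` -/
theorem diag_exists (hp : p ≠ ∞) (D : ℤ → (Y →L[ℂ] Y)) (C : ℝ) (hC : ∀ n, ‖D n‖ ≤ C) :
    ∃ R : LV p ℤ Y →L[ℂ] LV p ℤ Y, ∀ f n, (R f) n = D n (f n) :=
  ⟨vreix hp (fun n : ℤ => n) D C hC (fun _ _ _ _ h => h), fun _ _ => rfl⟩

theorem diag_sg (D : ℤ → (Y →L[ℂ] Y)) (R : LV p ℤ Y →L[ℂ] LV p ℤ Y)
    (hR : ∀ f n, (R f) n = D n (f n)) (n : ℤ) (y : Y) : R (sg p n y) = sg p n (D n y) := by
  ext m
  rw [hR]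
  by_cases hm : m = n
  · subst hm
    rw [sg_self, sg_self]
  · rw [sg_ne hm, sg_ne hm, map_zero]

/-- **block-weighted shifts of finite multiplicity without hyperinvariant subspaces** -/
theorem block_sim (hp : p ≠ ∞) [FiniteDimensional ℂ Y] [Nontrivial Y] {V : ℤ → (Y →L[ℂ] Y)}
    {T : LV p ℤ Y →L[ℂ] LV p ℤ Y} (hT : VMono (fun n : ℤ => n + 1) V T) (hV0 : ∃ m, V m ≠ 0)
    (hn : ¬ HasHyper T) :
    ∃ (w : ℤ → ℂ) (W : L p ℤ →L[ℂ] L p ℤ) (S : LV p ℤ Y ≃L[ℂ] LV p ℤ Y), IsShift w W ∧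
      (∃ δ : ℝ, 0 < δ ∧ ∀ n, δ ≤ ‖w n‖) ∧ ¬ HasHyper W ∧
      ∀ (n : ℤ) (y : Y), S (T (S.symm (sg p n y))) = sg p (n + 1) (w n • y) := by
  have hV := shift_bij hT hV0 hn
  have hT' : VMono shiftPerm V T := hT
  have ht : Tame shiftPerm V := tame_of hp hV hT' hn
  have : CompleteSpace Y := FiniteDimensional.complete ℂ Y
  let V' : ℤ → (Y ≃L[ℂ] Y) := fun n =>
    (LinearEquiv.ofBijective (V n : Y →ₗ[ℂ] Y) (hV n)).toContinuousLinearEquiv
  have hV' : ∀ n y, V' n y = V n y := fun n y => rfl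
  obtain ⟨A, hA0, hA⟩ := zseq (fun n : ℤ => Equiv.mulLeft (V' n)) (1 : Y ≃L[ℂ] Y)
  have hA1 : ∀ n y, A (n + 1) y = V n (A n y) := by
    intro n y
    rw [hA n]
    rfl
  obtain ⟨y₀, hy₀⟩ := exists_ne (0 : Y)
  have horb : ∀ y, OrbOver shiftPerm V 0 (fun n => A n y) := by
    intro y n
    change A (n + 1) y = V ((shiftPerm ^ n) 0) (A n y)
    rw [shiftPerm_zpow, hA1]
  have hx := horb y₀
  have hx0 : (fun n => A n y₀) 0 ≠ 0 := by
    change A 0 y₀ ≠ 0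
    rw [hA0]
    exact hy₀
  have hxn : ∀ n, A n y₀ ≠ 0 := orb_ne hV hx hx0
  have hpos : ∀ n, 0 < ‖A n y₀‖ := fun n => norm_pos_iff.2 (hxn n)
  -- the bound of the operators
  obtain ⟨C, hC⟩ : ∃ C, ∀ n : ℤ, ‖((‖A n y₀‖⁻¹ : ℝ) : ℂ) • (A n : Y →L[ℂ] Y)‖ ≤ C := by
    refine banach_steinhaus fun y => ?_
    obtain ⟨K, hK⟩ := tame_cmp hV ht hx hx0 (horb y)
    refine ⟨K, fun n => ?_⟩
    change ‖((‖A n y₀‖⁻¹ : ℝ) : ℂ) • A n y‖ ≤ K
    have h1 := hpos n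
    rw [norm_smul, Complex.norm_real, Real.norm_of_nonneg (by positivity), inv_mul_eq_div,
      div_le_iff₀ h1]
    exact hK n
  -- the bound of the inverses
  obtain ⟨C', hC'⟩ : ∃ C, ∀ n : ℤ, ‖((‖A n y₀‖ : ℝ) : ℂ) •
      ((ContinuousLinearMap.compL ℂ Y Y ℂ).flip ((A n).symm : Y →L[ℂ] Y))‖ ≤ C := by
    refine banach_steinhaus fun φ => ?_
    have hd : DualOver shiftPerm V 0 (fun n => φ.comp ((A n).symm : Y →L[ℂ] Y)) := by
      intro n
      ext y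
      change φ ((A (n + 1)).symm (V ((shiftPerm ^ n) 0) y)) = φ ((A n).symm y)
      rw [shiftPerm_zpow]
      congr 1
      rw [ContinuousLinearEquiv.symm_apply_eq, hA1, ContinuousLinearEquiv.apply_symm_apply]
    obtain ⟨K, hK⟩ := ht 0 0 _ _ hx hd
    refine ⟨K, fun n => ?_⟩
    change ‖((‖A n y₀‖ : ℝ) : ℂ) • (φ.comp ((A n).symm : Y →L[ℂ] Y))‖ ≤ K
    rw [norm_smul, Complex.norm_real, norm_norm]
    exact hK n
  have hC2 : ∀ n : ℤ, ‖((‖A n y₀‖ : ℝ) : ℂ) • ((A n).symm : Y →L[ℂ] Y)‖ ≤ C' := by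
    intro n
    refine ContinuousLinearMap.opNorm_le_bound _ ((norm_nonneg _).trans (hC' n)) fun y => ?_
    obtain ⟨g, hg1, hg2⟩ := exists_dual_vector'' ℂ (((‖A n y₀‖ : ℝ) : ℂ) • (A n).symm y)
    have h1 : ‖(((‖A n y₀‖ : ℝ) : ℂ) • (A n).symm y)‖ =
        ‖g (((‖A n y₀‖ : ℝ) : ℂ) • (A n).symm y)‖ := by
      rw [hg2]
      simp
    change ‖(((‖A n y₀‖ : ℝ) : ℂ) • (A n).symm y)‖ ≤ C' * ‖y‖
    rw [h1]
    have h2 : g (((‖A n y₀‖ : ℝ) : ℂ) • (A n).symm y) = ((((‖A n y₀‖ : ℝ) : ℂ) •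
      ((ContinuousLinearMap.compL ℂ Y Y ℂ).flip ((A n).symm : Y →L[ℂ] Y))) g) y := by
      rw [map_smul]
      rfl
    rw [h2]
    calc ‖((((‖A n y₀‖ : ℝ) : ℂ) •
          ((ContinuousLinearMap.compL ℂ Y Y ℂ).flip ((A n).symm : Y →L[ℂ] Y))) g) y‖
        ≤ ‖(((‖A n y₀‖ : ℝ) : ℂ) •
          ((ContinuousLinearMap.compL ℂ Y Y ℂ).flip ((A n).symm : Y →L[ℂ] Y))) g‖ * ‖y‖ :=
          ContinuousLinearMap.le_opNorm _ _
      _ ≤ (C' * 1) * ‖y‖ := by
          refine mul_le_mul_of_nonneg_right ?_ (norm_nonneg _)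
          exact (ContinuousLinearMap.le_opNorm _ _).trans
            (mul_le_mul (hC' n) hg1 (norm_nonneg _) ((norm_nonneg _).trans (hC' n)))
      _ = C' * ‖y‖ := by rw [mul_one]
  obtain ⟨R, hR⟩ := diag_exists hp _ C' hC2
  obtain ⟨R', hR'⟩ := diag_exists hp _ C hC
  have hinv1 : ∀ n, ((‖A n y₀‖⁻¹ : ℝ) : ℂ) * ((‖A n y₀‖ : ℝ) : ℂ) = 1 := by
    intro n
    rw [← Complex.ofReal_mul, inv_mul_cancel₀ (hpos n).ne', Complex.ofReal_one]
  have h1 : Function.LeftInverse R' R := by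
    intro f
    ext n
    rw [hR', hR]
    change ((‖A n y₀‖⁻¹ : ℝ) : ℂ) • A n (((‖A n y₀‖ : ℝ) : ℂ) • (A n).symm (f n)) = f n
    rw [map_smul, smul_smul, hinv1, one_smul, ContinuousLinearEquiv.apply_symm_apply]
  have h2 : Function.RightInverse R' R := by
    intro f
    ext n
    rw [hR, hR']
    change ((‖A n y₀‖ : ℝ) : ℂ) • (A n).symm (((‖A n y₀‖⁻¹ : ℝ) : ℂ) • A n (f n)) = f n
    rw [map_smul, smul_smul, mul_comm, hinv1, one_smul, ContinuousLinearEquiv.symm_apply_apply]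
  obtain ⟨ι, π, -, -, -, hW⟩ := section_exists hp hV hT' shift_io ht hx hx0
  refine ⟨wt (fun n => A n y₀), _, ContinuousLinearEquiv.equivOfInverse R R' h1 h2, hW,
    wt_lower hp hV hT' shift_io ht hx hx0,
    fun h => hn ((tame_iff hp hV hT' shift_io ht hx hx0 _ hW).2 h), fun n y => ?_⟩
  change R (T (R' (sg p n y))) = _
  rw [diag_sg _ R' hR', hT, diag_sg _ R hR]
  congr 1
  change ((‖A (n + 1) y₀‖ : ℝ) : ℂ) • (A (n + 1)).symm (V n (((‖A n y₀‖⁻¹ : ℝ) : ℂ) • A n y)) = _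
  rw [map_smul, map_smul, ← hA1, ContinuousLinearEquiv.symm_apply_apply, smul_smul]
  unfold wt
  rw [div_eq_mul_inv, Complex.ofReal_mul]

/-- the converse -/
theorem block_conv (hp : p ≠ ∞) {T : LV p ℤ Y →L[ℂ] LV p ℤ Y}
    (w : ℤ → ℂ) (W : L p ℤ →L[ℂ] L p ℤ) (S : LV p ℤ Y ≃L[ℂ] LV p ℤ Y) (hW : IsShift w W)
    (hn : ¬ HasHyper W)
    (hS : ∀ (n : ℤ) (y : Y), S (T (S.symm (sg p n y))) = sg p (n + 1) (w n • y)) :
    ¬ HasHyper T := by
  intro h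
  apply hn
  have hST : ∀ f : LV p ℤ Y, ∀ n : ℤ, (S (T (S.symm f))) (n + 1) = w n • f n := by
    intro f n
    have h1 : (vv p (n + 1)).comp (((S : LV p ℤ Y →L[ℂ] LV p ℤ Y).comp T).comp
        (S.symm : LV p ℤ Y →L[ℂ] LV p ℤ Y)) = w n • (vv p n : LV p ℤ Y →L[ℂ] Y) := by
      apply ext_sg hp
      intro m y
      change (S (T (S.symm (sg p m y)))) (n + 1) = w n • (sg p m y : LV p ℤ Y) n
      rw [hS]
      by_cases hm : n = m
      · subst hm
        rw [sg_self, sg_self]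
      · rw [sg_ne (fun h => hm (add_right_cancel h)), sg_ne hm, smul_zero]
    exact congrArg (fun R : LV p ℤ Y →L[ℂ] Y => R f) h1
  refine transfer T W ?_ ?_ h
  · intro f hf
    have hSf : S f ≠ 0 := by
      intro h0
      apply hf
      rw [← S.symm_apply_apply f, h0, map_zero]
    obtain ⟨b, hb⟩ : ∃ b, (S f) b ≠ 0 := by
      by_contra hcon
      push Not at hcon
      exact hSf (lp.ext (funext hcon))
    have : Nontrivial Y := ⟨⟨(S f) b, 0, hb⟩⟩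
    obtain ⟨ψ, hψ⟩ := exists_dual ((S f) b) hb
    let Q : LV p ℤ Y →L[ℂ] L p ℤ := vreix (Z := ℂ) (A := ℤ) hp (fun n : ℤ => n) (fun _ => ψ) ‖ψ‖
      (fun _ => le_rfl) (fun _ _ _ _ h => h)
    have hQ : ∀ (g : LV p ℤ Y) (n : ℤ), (Q g) n = ψ (g n) := fun g n => rfl
    refine ⟨Q.comp (S : LV p ℤ Y →L[ℂ] LV p ℤ Y), ?_, fun h0 => ?_⟩
    · ext g n
      obtain ⟨m, rfl⟩ : ∃ m, n = m + 1 := ⟨n - 1, by ring⟩
      have h3 := perm_apply hp (σ := shiftPerm) (v := w) hW (Q (S g)) m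
      rw [shiftPerm_apply] at h3
      change (Q (S (T g))) (m + 1) = (W (Q (S g))) (m + 1)
      rw [h3, hQ, hQ]
      have h4 := hST (S g) m
      rw [S.symm_apply_apply] at h4
      rw [h4, map_smul, smul_eq_mul]
    · have h5 := hQ (S f) b
      change (Q (S f)) = 0 at h0
      rw [h0, hψ] at h5
      exact zero_ne_one h5
  · intro M hM hι
    have hM' : M.comap ((S.symm : LV p ℤ Y →L[ℂ] LV p ℤ Y) : LV p ℤ Y →ₗ[ℂ] LV p ℤ Y) = ⊤ := by
      refine mem_of_sg hp _ (hM.preimage S.symm.continuous) fun b y => ?_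
      let J : L p ℤ →L[ℂ] LV p ℤ Y := vreix (Y := ℂ) (B := ℤ) hp (fun n : ℤ => n)
        (fun _ => (1 : ℂ →L[ℂ] ℂ).smulRight y) ‖(1 : ℂ →L[ℂ] ℂ).smulRight y‖
        (fun _ => le_rfl) (fun _ _ _ _ h => h)
      have hJ : ∀ (g : L p ℤ) (n : ℤ), (J g) n = g n • y := fun g n => rfl
      have hJe : J (e p b) = sg p b y := by
        ext n
        rw [hJ]
        by_cases hn : n = b
        · subst hn
          rw [e_self, one_smul, sg_self]
        · rw [e_ne hn, zero_smul, sg_ne hn]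
      change S.symm (sg p b y) ∈ M
      rw [← hJe]
      refine hι ((S.symm : LV p ℤ Y →L[ℂ] LV p ℤ Y).comp J) ?_ (e p b)
      ext1 g
      change T (S.symm (J g)) = S.symm (J (W g))
      apply S.injective
      rw [S.apply_symm_apply]
      ext n
      obtain ⟨m, rfl⟩ : ∃ m, n = m + 1 := ⟨n - 1, by ring⟩
      have h3 := perm_apply hp (σ := shiftPerm) (v := w) hW g m
      rw [shiftPerm_apply] at h3
      rw [hST, hJ, hJ, h3, smul_smul]
    rw [Submodule.eq_top_iff']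
    intro f
    have h6 : S f ∈ M.comap ((S.symm : LV p ℤ Y →L[ℂ] LV p ℤ Y) : LV p ℤ Y →ₗ[ℂ] LV p ℤ Y) := by
      rw [hM']
      exact Submodule.mem_top
    have h7 : S.symm (S f) ∈ M := h6
    rw [S.symm_apply_apply] at h7
    exact h7

end Pool.Agent.U38.HP
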